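import Pool.Agent.Y169.TP.Pcs
import Pool.Agent.Y169.CH.Shr
import Pool.Agent.Y169.TH.Cnt
import Pool.Agent.Y169.TH.Kod

/-!
The components of the hypersurfaces, and the rays of the axes.
-/

set_option autoImplicit false
set_option linter.overlappingInstances false
set_option linter.unusedSectionVars false
set_option maxHeartbeats 400000

open FF MvPolynomial Pool.Agent.W603.LV Pool.Agent.W602.GT Pool.Agent.W602.Cov
open Pool.Agent.TH122.AB Pool.Agent.Y169.TH
open Pool.Agent.Y169.CH hiding Adm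

namespace Pool.Agent.Y169.TP

theorem pderiv_deh {m : ℕ} (F : MvPolynomial (Fin (m + 1)) ℂ) (b : Fin m) :
    pderiv b (deh F) = deh (pderiv b.succ F) := by
  classical
  unfold deh
  rw [chain_ring, Fin.sum_univ_succ, Fin.cases_zero, Derivation.map_one_eq_zero, mul_zero, zero_add,
    Finset.sum_eq_single b]
  · rw [Fin.cases_succ, pderiv_X_self, mul_one]
  · intro l _ hl
    rw [Fin.cases_succ, pderiv_X_of_ne hl, mul_zero]
  · intro h
    exact absurd (Finset.mem_univ _) h

theorem exists_zero {m : ℕ} {p : MvPolynomial (Fin m) ℂ} (hp : Irreducible p) :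
    ∃ y : Fin m → ℂ, eval y p = 0 := by
  by_contra hcon
  push Not at hcon
  have h1 : zeroLocus ℂ (Ideal.span {p}) = (∅ : Set (Fin m → ℂ)) := by
    ext y
    rw [mem_zeroLocus_iff]
    constructor
    · intro h
      exact hcon y (h p (Ideal.subset_span rfl))
    · intro h
      exact absurd h (Set.notMem_empty y)
  have h2 := vanishingIdeal_zeroLocus_eq_radical (K := ℂ) (Ideal.span {p} : Ideal (MvPolynomial (Fin m) ℂ))
  rw [h1] at h2
  have h3 : (1 : MvPolynomial (Fin m) ℂ) ∈ vanishingIdeal ℂ (∅ : Set (Fin m → ℂ)) := by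
    rw [mem_vanishingIdeal_iff]
    intro y hy
    exact absurd hy (Set.notMem_empty y)
  rw [h2] at h3
  obtain ⟨M, hM⟩ := h3
  rw [one_pow, Ideal.mem_span_singleton] at hM
  exact hp.not_isUnit (isUnit_of_dvd_one hM)

/-- two of the hypersurfaces have no common component -/
theorem not_both {m : ℕ} {F : Fin (m + 1) → MvPolynomial (Fin (m + 1)) ℂ} (hS : Snc F)
    {dF : Fin (m + 1) → ℕ} (hh : ∀ k, (F k).IsHomogeneous (dF k)) {p : MvPolynomial (Fin m) ℂ}
    (hp : Irreducible p) {k t : Fin (m + 1)} (hkt : k ≠ t) (hk : p ∣ deh (F k))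
    (ht : p ∣ deh (F t)) : False := by
  classical
  obtain ⟨y, hy⟩ := exists_zero hp
  obtain ⟨x, hx⟩ : ∃ x : Fin (m + 1) → ℂ, x = Fin.cases 1 y := ⟨_, rfl⟩
  have hx0 : x 0 = 1 := by rw [hx]; rfl
  have hxs : (fun b : Fin m => x b.succ) = y := by rw [hx]; rfl
  have hev : ∀ G : MvPolynomial (Fin (m + 1)) ℂ, eval x G = eval y (deh G) := by
    intro G
    have h := aeval_deh (K := ℂ) hx0 G
    rw [hxs] at h
    exact h.symm
  obtain ⟨G, hG⟩ : ∃ G : Fin (m + 1) → ℂ, G = Fin.cases (- ∑ b, y b * eval y (pderiv b p))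
    fun b => eval y (pderiv b p) := ⟨_, rfl⟩
  have key : ∀ i, p ∣ deh (F i) → eval x (F i) = 0 ∧ ∃ c : ℂ, ∀ l, eval x (pderiv l (F i)) = c * G l := by
    rintro i ⟨q, hq⟩
    have h0 : eval x (F i) = 0 := by
      rw [hev, hq, map_mul, hy, zero_mul]
    have h1 : ∀ b : Fin m, eval x (pderiv b.succ (F i)) = eval y q * eval y (pderiv b p) := by
      intro b
      rw [hev, ← pderiv_deh, hq, Derivation.leibniz, map_add, smul_eq_mul, smul_eq_mul, map_mul,
        map_mul, hy, zero_mul, zero_add]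
    refine ⟨h0, eval y q, fun l => ?_⟩
    refine Fin.cases ?_ (fun b => ?_) l
    · have h2 := congrArg (eval x) (hh i).sum_X_mul_pderiv
      rw [map_sum, map_nsmul, h0, smul_zero, Fin.sum_univ_succ, map_mul, eval_X, hx0, one_mul] at h2
      have h3 : ∀ b : Fin m, eval x (X b.succ * pderiv b.succ (F i)) =
          eval y q * (y b * eval y (pderiv b p)) := by
        intro b
        rw [map_mul, eval_X, h1]
        have : x b.succ = y b := congrFun hxs b
        rw [this]
        ring
      rw [Finset.sum_congr rfl fun b _ => h3 b, ← Finset.mul_sum] at h2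
      have h4 : G 0 = - ∑ b, y b * eval y (pderiv b p) := by rw [hG]; rfl
      rw [h4]
      linear_combination h2
    · have h4 : G b.succ = eval y (pderiv b p) := by rw [hG]; rfl
      rw [h1, h4]
  obtain ⟨hk0, c1, hc1⟩ := key k hk
  obtain ⟨ht0, c2, hc2⟩ := key t ht
  have hxne : x ≠ 0 := by
    intro h
    have := congrFun h 0
    rw [hx0] at this
    exact one_ne_zero this
  have hlin := hS x hxne
  let f : Fin 2 → {k // eval x (F k) = 0} := ![⟨k, hk0⟩, ⟨t, ht0⟩]
  have hf : Function.Injective f := by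
    intro a b hab
    fin_cases a <;> fin_cases b
    · rfl
    · exact absurd (congrArg Subtype.val hab) hkt
    · exact absurd (congrArg Subtype.val hab).symm hkt
    · rfl
  have h1 := Fintype.linearIndependent_iff.1 (hlin.comp f hf) ![c2, - c1] (by
    rw [Fin.sum_univ_two]
    funext l
    change c2 * eval x (pderiv l (F k)) + - c1 * eval x (pderiv l (F t)) = 0
    rw [hc1, hc2]
    ring)
  have h2 : - c1 = 0 := h1 1
  have h3 : c1 = 0 := neg_eq_zero.1 h2
  apply hlin.ne_zero ⟨k, hk0⟩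
  funext l
  change eval x (pderiv l (F k)) = 0
  rw [hc1, h3, zero_mul]

section

variable {N R : ℕ} {M : Fin R → ℕ} {a : Fin R → Fin N → ℕ}

/-- primitive admissible vectors -/
def Prm (M : Fin R → ℕ) (a : Fin R → Fin N → ℕ) (w : Fin N → ℕ) : Prop :=
  Adm M a w ∧ ∀ c v, Adm M a v → w = c • v → c = 1

theorem sum_single (t : Fin N) (r : ℕ) (j : Fin R) :
    ∑ k, a j k * (Pi.single t r : Fin N → ℕ) k = a j t * r := by
  classical
  rw [Finset.sum_eq_single t]
  · rw [Pi.single_eq_same]
  · intro k _ hk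
    rw [Pi.single_eq_of_ne hk, mul_zero]
  · intro h
    exact absurd (Finset.mem_univ _) h

theorem axis_mul (hN : 2 ≤ N) {t : Fin N} {e0 r : ℕ} (he0 : 0 < e0)
    (hA : Prm M a (Pi.single t e0)) (hr : Adm M a (Pi.single t r)) : e0 ∣ r := by
  classical
  obtain ⟨g, hg⟩ : ∃ g, g = Nat.gcd e0 r := ⟨_, rfl⟩
  have hg0 : 0 < g := by
    rw [hg]
    exact Nat.gcd_pos_of_pos_left _ he0
  obtain ⟨c, hc⟩ : g ∣ e0 := by
    rw [hg]
    exact Nat.gcd_dvd_left _ _
  have h1 : Adm M a (Pi.single t g) := by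
    refine ⟨?_, ?_, fun j => ?_⟩
    · intro h0
      have h2 := congrFun h0 t
      rw [Pi.single_eq_same, Pi.zero_apply] at h2
      omega
    · haveI : Nontrivial (Fin N) := Fin.nontrivial_iff_two_le.2 hN
      obtain ⟨i, hi⟩ := exists_ne t
      exact ⟨i, Pi.single_eq_of_ne hi _⟩
    · rw [sum_single, hg, ← Nat.gcd_mul_left]
      refine Nat.dvd_gcd ?_ ?_
      · have h2 := hA.1.2.2 j
        rwa [sum_single] at h2
      · have h2 := hr.2.2 j
        rwa [sum_single] at h2
  have h2 := hA.2 c _ h1 (by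
    funext k
    rw [Pi.smul_apply, smul_eq_mul]
    by_cases hk : k = t
    · subst hk
      rw [Pi.single_eq_same, Pi.single_eq_same, hc, mul_comm]
    · rw [Pi.single_eq_of_ne hk, Pi.single_eq_of_ne hk, mul_zero])
  rw [h2, mul_one] at hc
  rw [hc, hg]
  exact Nat.gcd_dvd_right _ _

end

end Pool.Agent.Y169.TP
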