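import Pool.Agent.Y169.TP.Up
import Pool.Agent.Y169.TP.LP

/-!
The numerical dimension and the pseudo-effectivity of toroidal pairs in terms of a polyhedron.
-/

set_option autoImplicit false
set_option linter.overlappingInstances false
set_option linter.unusedSectionVars false
set_option maxHeartbeats 1000000

open FF MvPolynomial IntermediateField Pool.Agent.W603.LV Pool.Agent.W619.PQ
open Pool.Agent.W619.TW Pool.Agent.W602.GT Pool.Agent.TH122.AB Pool.Agent.TH756.PN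
open Pool.Agent.TH152.AC Pool.Agent.Y169.TH Pool.Agent.Y169.TH.Cv
open Pool.Agent.Y169.CH hiding Adm

namespace Pool.Agent.Y169.TP

/-- the polyhedron -/
def PiT {N : ℕ} (dF : Fin N → ℕ) {ι : Type} (W : ι → Fin N → ℕ) (β : ι → ℚ) :
    Set (Fin N → ℚ) :=
  {y | ∑ k, (dF k : ℚ) * y k = ∑ k, (dF k : ℚ) - N ∧ ∀ s, 1 - β s ≤ ∑ k, (W s k : ℚ) * y k}

/-- the rational vector -/
def qv {N : ℕ} {ι : Type} (W : ι → Fin N → ℕ) (s : ι) (k : Fin N) : ℚ := (W s k : ℚ)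

theorem PiT_eq {N : ℕ} {dF : Fin N → ℕ} {ι : Type} {W : ι → Fin N → ℕ} {β : ι → ℚ} :
    PiT dF W β = PolG (fun k => (dF k : ℚ)) (∑ k, (dF k : ℚ) - N) (qv W) fun s => 1 - β s := by
  ext y
  exact Iff.rfl

theorem nonneg_of_ax {N : ℕ} {ι : Type} {W : ι → Fin N → ℕ}
    (hax : ∀ k, ∃ s e, 0 < e ∧ W s = Pi.single k e) {y : Fin N → ℚ} {c : ℚ} (hc : 0 ≤ c)
    (h : ∀ s, -c ≤ dotL (qv W s) y) (k : Fin N) : -c ≤ y k := by
  classical
  obtain ⟨s, e, he, hs⟩ := hax k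
  have h1 := h s
  rw [dotL_apply, Finset.sum_eq_single k] at h1
  · unfold qv at h1
    rw [hs, Pi.single_eq_same] at h1
    have h2 : (1 : ℚ) ≤ e := by exact_mod_cast he
    by_contra hneg
    push Not at hneg
    nlinarith
  · intro i _ hi
    unfold qv
    rw [hs, Pi.single_eq_of_ne hi, Nat.cast_zero, zero_mul]
  · intro hk
    exact absurd (Finset.mem_univ _) hk

variable {d : ℕ} {Φ : Arr (d + 1)} {K : Type} [Field K] [Algebra ℂ K] {R : ℕ} (C : Cv Φ K R)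

theorem kap_nonneg (Φ : Arr (d + 1)) : (0 : ℤ) ≤ ∑ k, (Φ.dF k : ℤ) - (d + 2) := by
  have h1 : ∑ k : Fin (d + 2), (1 : ℤ) ≤ ∑ k, (Φ.dF k : ℤ) :=
    Finset.sum_le_sum fun k _ => by exact_mod_cast Φ.hd k
  simp only [Finset.sum_const, Finset.card_univ, Fintype.card_fin, nsmul_eq_mul, mul_one] at h1
  push_cast at h1
  linarith

theorem dotq (q : ℕ) (a : Fin (d + 1) →₀ ℕ) {ι : Type} (W : ι → Fin (d + 2) → ℕ) (s : ι) :
    dotL (qv W s) (fun k => (yv Φ q a k : ℚ)) = ((∑ k, (W s k : ℤ) * yv Φ q a k : ℤ) : ℚ) :=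
  dotq_yv q a (W s)

/-- **Not pseudo-effective.** -/
theorem not_psef2 {ι : Type} [Fintype ι] {W : ι → Fin (d + 2) → ℕ} {β : ι → ℚ}
    (hW : ∀ s, Prm C.M C.a (W s)) (hax : ∀ k, ∃ s e, 0 < e ∧ W s = Pi.single k e)
    (hβ : ∀ s, β s ≤ 1) (hP : PiT Φ.dF W β = ∅) (S : Finset K) :
    ∃ M : ℕ, ∀ j : ℕ, 1 ≤ j → ∀ ω : (Fin (d + 1) → Derivation ℂ K K) → K,
      TSc C W (fun s => (β s : ℝ)) (pw S j) (j * M) ω → ω = 0 := by
  classical
  rw [PiT_eq] at hP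
  obtain ⟨C0, c, hC⟩ := sec_bound2 C hW hax (β := fun s => (β s : ℝ))
    (fun s => by exact_mod_cast hβ s) S
  obtain ⟨κ, hκ⟩ : ∃ κ : ℤ, κ = ∑ k, (Φ.dF k : ℤ) - (d + 2) := ⟨_, rfl⟩
  have hκ0 : 0 ≤ κ := by
    rw [hκ]
    exact kap_nonneg Φ
  have hκq : (∑ k, (Φ.dF k : ℚ) - ((d + 2 : ℕ) : ℚ)) = κ := by
    rw [hκ]
    push_cast
    ring
  rw [hκq] at hP
  obtain ⟨w, c0, hw, hwd, hlt⟩ := lp_empty hP
  have hκ0q : (0 : ℚ) ≤ κ := by exact_mod_cast hκ0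
  have hc0 : 0 ≤ c0 := by
    have h1 := hwd fun _ => 1
    have h2 : (0 : ℚ) < dotL (fun k => (Φ.dF k : ℚ)) fun _ => 1 := by
      rw [dotL_apply]
      exact Finset.sum_pos (fun k _ => by
        have := Φ.hd k
        positivity) ⟨0, Finset.mem_univ _⟩
    have h3 : (0 : ℚ) ≤ ∑ s, w s * dotL (qv W s) fun _ => 1 := by
      refine Finset.sum_nonneg fun s _ => mul_nonneg (hw s) ?_
      rw [dotL_apply]
      exact Finset.sum_nonneg fun k _ => by unfold qv; positivity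
    rw [h1] at h3
    exact nonneg_of_mul_nonneg_left h3 h2
  obtain ⟨g, hg⟩ : ∃ g, g = ∑ s, w s * (1 - β s) := ⟨_, rfl⟩
  obtain ⟨σ, hσ⟩ : ∃ σ, σ = ∑ s, w s := ⟨_, rfl⟩
  have hσ0 : 0 ≤ σ := by
    rw [hσ]
    exact Finset.sum_nonneg fun s _ => hw s
  rw [← hg] at hlt
  have hgκ : 0 < g - c0 * κ := sub_pos.2 hlt
  obtain ⟨M, hM⟩ := exists_nat_gt ((2 * (σ + c0) * c + c0 * Φ.E) / (g - c0 * κ))
  rw [div_lt_iff₀ hgκ] at hM
  refine ⟨M, fun j hj ω hω => ?_⟩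
  by_contra hω0
  obtain ⟨X, hX⟩ : ∃ X : ℤ, X = κ * ((j * M : ℕ) : ℤ) + c * (j + 1) := ⟨_, rfl⟩
  have hX0 : 0 ≤ X := by
    rw [hX]
    positivity
  obtain ⟨q, hq⟩ : ∃ q : ℕ, q = X.toNat / Φ.E + 1 := ⟨_, rfl⟩
  have hXn : (X.toNat : ℤ) = X := Int.toNat_of_nonneg hX0
  have hq1 : X ≤ Φ.E * q := by
    have h1 : X.toNat < Φ.E * (X.toNat / Φ.E + 1) := Nat.lt_mul_div_succ _ Φ.E_pos
    have h2 : (X.toNat : ℤ) ≤ Φ.E * q := by
      rw [hq]
      exact_mod_cast h1.le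
    rwa [hXn] at h2
  have hq2 : (Φ.E * q : ℤ) ≤ X + Φ.E := by
    have h1 : (Φ.E * q : ℕ) ≤ X.toNat + Φ.E := by
      rw [hq, mul_add, mul_one]
      exact Nat.add_le_add_right (Nat.mul_div_le _ _) _
    have h2 : (Φ.E * q : ℤ) ≤ (X.toNat : ℤ) + Φ.E := by exact_mod_cast h1
    rwa [hXn] at h2
  have h1 := hC (j * M) j q 1 (fun _ => ω) ?_ (fun _ => hω) ?_ ∅ ?_
  · simp at h1
  · rw [linearIndependent_unique_iff]
    exact hω0
  · rw [← hκ, ← hX]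
    exact hq1
  · intro a ha
    exfalso
    have h2 : ∀ s, (1 - β s) * ((j * M : ℕ) : ℚ) - c * (j + 1) ≤
        dotL (qv W s) (fun k => (yv Φ q a k : ℚ)) := by
      intro s
      rw [dotq, dot_yv]
      have h3 := ha s
      have h4 : (((1 - β s) * ((j * M : ℕ) : ℚ) - c * (j + 1) : ℚ) : ℝ) ≤
          ((((Φ.ee 0 * W s 0 : ℤ) * (q - ∑ b, (a b : ℤ)) +
            ∑ b, (Φ.ee b.succ * W s b.succ : ℤ) * a b : ℤ) : ℚ) : ℝ) := by
        push_cast at h3 ⊢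
        exact h3
      exact_mod_cast h4
    have h3 : ∑ s, w s * ((1 - β s) * ((j * M : ℕ) : ℚ) - c * (j + 1)) ≤
        ∑ s, w s * dotL (qv W s) (fun k => (yv Φ q a k : ℚ)) :=
      Finset.sum_le_sum fun s _ => mul_le_mul_of_nonneg_left (h2 s) (hw s)
    rw [hwd, dotq_yv, deg_yv] at h3
    have h4 : ∑ s, w s * ((1 - β s) * ((j * M : ℕ) : ℚ) - c * (j + 1)) =
        g * ((j * M : ℕ) : ℚ) - σ * (c * (j + 1)) := by
      rw [hg, hσ, Finset.sum_mul, Finset.sum_mul, ← Finset.sum_sub_distrib]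
      exact Finset.sum_congr rfl fun s _ => by ring
    rw [h4] at h3
    have h5 : ((Φ.E * q : ℤ) : ℚ) ≤ κ * (j * M) + c * (j + 1) + Φ.E := by
      have h6 : ((Φ.E * q : ℤ) : ℚ) ≤ ((X + Φ.E : ℤ) : ℚ) := by exact_mod_cast hq2
      rw [hX] at h6
      push_cast at h6 ⊢
      exact h6
    have h6 := mul_le_mul_of_nonneg_left h5 hc0
    have hjq : (1 : ℚ) ≤ j := by exact_mod_cast hj
    push_cast at h3 h6
    have h8 : (j : ℚ) * (M * (g - c0 * κ)) ≤ j * (2 * (σ + c0) * c + c0 * Φ.E) := by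
      have h9 : (σ + c0) * c * (j + 1) ≤ (σ + c0) * c * (2 * j) := by
        apply mul_le_mul_of_nonneg_left _ (by positivity)
        linarith
      have h10 : (c0 * Φ.E : ℚ) * 1 ≤ c0 * Φ.E * j :=
        mul_le_mul_of_nonneg_left hjq (by positivity)
      nlinarith
    have h9 := le_of_mul_le_mul_left h8 (by linarith)
    linarith

/-- **The numerical dimension.** -/
theorem num_le2 {ι : Type} [Fintype ι] {W : ι → Fin (d + 2) → ℕ} {β : ι → ℚ}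
    (hW : ∀ s, Prm C.M C.a (W s)) (hax : ∀ k, ∃ s e, 0 < e ∧ W s = Pi.single k e)
    (hβ : ∀ s, β s ≤ 1) (hne : (PiT Φ.dF W β).Nonempty) (S : Finset K) :
    ∃ C1 : ℕ, ∀ (m N : ℕ), 1 ≤ m → ∀ ω : Fin N → (Fin (d + 1) → Derivation ℂ K K) → K,
      LinearIndependent ℂ ω → (∀ l, TSc C W (fun s => (β s : ℝ)) S m (ω l)) →
      N ≤ C1 * m ^ (Module.finrank ℚ (vectorSpan ℚ (PiT Φ.dF W β))) := by
  classical
  rw [PiT_eq] at hne ⊢
  obtain ⟨C0, c, hC⟩ := sec_bound2 C hW hax (β := fun s => (β s : ℝ))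
    (fun s => by exact_mod_cast hβ s) S
  obtain ⟨κ, hκ⟩ : ∃ κ : ℤ, κ = ∑ k, (Φ.dF k : ℤ) - (d + 2) := ⟨_, rfl⟩
  have hκ0 : 0 ≤ κ := by
    rw [hκ]
    exact kap_nonneg Φ
  have hκq : (∑ k, (Φ.dF k : ℚ) - ((d + 2 : ℕ) : ℚ)) = κ := by
    rw [hκ]
    push_cast
    ring
  rw [hκq] at hne ⊢
  have hdq : ∀ k, (0 : ℚ) < Φ.dF k := fun k => by exact_mod_cast Φ.hd k
  have hnn : ∀ y : Fin (d + 2) → ℚ, (∀ s, 0 ≤ dotL (qv W s) y) → ∀ k, 0 ≤ y k := by
    intro y hy k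
    have h1 := nonneg_of_ax hax le_rfl (fun s => by simpa using hy s) k
    simpa using h1
  obtain ⟨P, hP⟩ : ∃ P : Set (Fin (d + 2) → ℚ),
    P = PolG (fun k => (Φ.dF k : ℚ)) (κ : ℚ) (qv W) (fun s => 1 - β s) := ⟨_, rfl⟩
  rw [← hP] at hne ⊢
  have hγ0 : ∀ s, 0 ≤ 1 - β s := fun s => by linarith [hβ s]
  -- the implicit equations
  let I : Type := {s : ι // ∀ y ∈ P, dotL (qv W s) y = 1 - β s}
  haveI : Fintype I := Fintype.ofFinite _
  have hface : ∀ s : I, ∃ A0 : ℚ, 0 ≤ A0 ∧ ∀ (y : Fin (d + 2) → ℚ) (m c B : ℚ), 0 ≤ m → 0 ≤ c →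
      0 ≤ B → (∀ s, (1 - β s) * m - c ≤ dotL (qv W s) y) →
      |dotL (fun k => (Φ.dF k : ℚ)) y - κ * m| ≤ B →
      dotL (qv W s.1) y ≤ (1 - β s.1) * m + A0 * (c + B) := by
    intro s
    refine lp_face (γ := fun s => 1 - β s) hdq hnn ?_
    rw [← hP]
    exact s.2
  choose A0 hA00 hA0 using hface
  obtain ⟨J, hJ1, hJ2⟩ := exists_coords (vectorSpan ℚ P)
  -- the constants
  obtain ⟨B, hB⟩ : ∃ B : ℕ, B = 2 * c + Φ.E := ⟨_, rfl⟩
  obtain ⟨C1, hC1⟩ := exists_nat_ge ((∑ s, A0 s) * (2 * c + B) + 2 * c)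
  obtain ⟨DD, hDD⟩ : ∃ DD : ℕ, DD = ∑ k, Φ.dF k := ⟨_, rfl⟩
  obtain ⟨B', hB'⟩ : ∃ B' : ℕ, B' = κ.toNat + B + 2 * c * DD + 2 * c := ⟨_, rfl⟩
  refine ⟨C0 * ((C1 + 1) ^ Fintype.card I * (2 * B' + 1) ^ Fintype.card J),
    fun m N hm ω hlin hsec => ?_⟩
  obtain ⟨X, hX⟩ : ∃ X : ℤ, X = κ * m + c * (1 + 1) := ⟨_, rfl⟩
  have hX0 : 0 ≤ X := by
    rw [hX]
    positivity
  obtain ⟨q, hq⟩ : ∃ q : ℕ, q = X.toNat / Φ.E + 1 := ⟨_, rfl⟩
  have hXn : (X.toNat : ℤ) = X := Int.toNat_of_nonneg hX0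
  have hq1 : X ≤ Φ.E * q := by
    have h1 : X.toNat < Φ.E * (X.toNat / Φ.E + 1) := Nat.lt_mul_div_succ _ Φ.E_pos
    have h2 : (X.toNat : ℤ) ≤ Φ.E * q := by
      rw [hq]
      exact_mod_cast h1.le
    rwa [hXn] at h2
  have hq2 : (Φ.E * q : ℤ) ≤ X + Φ.E := by
    have h1 : (Φ.E * q : ℕ) ≤ X.toNat + Φ.E := by
      rw [hq, mul_add, mul_one]
      exact Nat.add_le_add_right (Nat.mul_div_le _ _) _
    have h2 : (Φ.E * q : ℤ) ≤ (X.toNat : ℤ) + Φ.E := by exact_mod_cast h1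
    rwa [hXn] at h2
  let A : Finset (Fin (d + 1) →₀ ℕ) :=
    ((Fintype.piFinset fun _ : Fin (d + 1) => Finset.range (q + 2 * c + 1)).image
      Finsupp.equivFunOnFinite.symm).filter fun a => ∀ s : ι,
        (1 - β s) * m - 2 * c ≤ ((∑ k, (W s k : ℤ) * yv Φ q a k : ℤ) : ℚ)
  have hA1 : ∀ a : Fin (d + 1) →₀ ℕ, (∀ s : ι,
      (1 - β s) * m - 2 * c ≤ ((∑ k, (W s k : ℤ) * yv Φ q a k : ℤ) : ℚ)) →
      ∀ k, -(2 * c : ℤ) ≤ yv Φ q a k := by
    intro a ha k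
    have h1 := nonneg_of_ax hax (y := fun k => (yv Φ q a k : ℚ)) (c := 2 * c) (by positivity)
      (fun s => by
        rw [dotq]
        refine le_trans ?_ (ha s)
        have := mul_nonneg (hγ0 s) (show (0 : ℚ) ≤ m by positivity)
        linarith) k
    exact_mod_cast h1
  have hAmem : ∀ a ∈ A, ∀ s : ι,
      (1 - β s) * m - 2 * c ≤ ((∑ k, (W s k : ℤ) * yv Φ q a k : ℤ) : ℚ) := fun a ha =>
    (Finset.mem_filter.1 ha).2
  have hqκ : ∀ a : Fin (d + 1) →₀ ℕ,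
      |dotL (fun k => (Φ.dF k : ℚ)) (fun k => (yv Φ q a k : ℚ)) - κ * m| ≤ B := by
    intro a
    rw [dotq_yv, deg_yv, abs_le]
    have h1 : ((X : ℤ) : ℚ) ≤ ((Φ.E * q : ℤ) : ℚ) := by exact_mod_cast hq1
    have h2 : ((Φ.E * q : ℤ) : ℚ) ≤ ((X + Φ.E : ℤ) : ℚ) := by exact_mod_cast hq2
    rw [hX] at h1 h2
    push_cast at h1 h2 ⊢
    rw [hB]
    push_cast
    have h3 : (0 : ℚ) ≤ c := by positivity
    have h4 : (0 : ℚ) ≤ Φ.E := by positivity
    constructor <;> linarith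
  obtain ⟨lo, hlo⟩ : ∃ lo : ι → ℤ, lo = fun s => ⌈(1 - β s) * m - 2 * c⌉ := ⟨_, rfl⟩
  have hcard : A.card ≤ (C1 + 1) ^ Fintype.card I * (2 * B' + 1) ^ Fintype.card J *
      m ^ Fintype.card J := by
    refine count A (fun a (s : I) => ∑ k, (W s.1 k : ℤ) * yv Φ q a k - lo s.1)
      (fun a (k : J) => yv Φ q a k.1) 0 C1 B' hm (fun a ha s => ?_)
      (fun a ha k => ?_) fun a ha b hb h1 h2 => ?_
    · have h0 : lo s.1 ≤ ∑ k, (W s.1 k : ℤ) * yv Φ q a k := by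
        rw [hlo]
        exact Int.ceil_le.2 (hAmem a ha s.1)
      refine ⟨by linarith, ?_⟩
      have h1 := hA0 s (fun k => (yv Φ q a k : ℚ)) m (2 * c) B (by positivity) (by positivity)
        (by positivity) (fun t => by
          rw [dotq]
          exact hAmem a ha t) (hqκ a)
      rw [dotq] at h1
      have h2 : A0 s ≤ ∑ s, A0 s :=
        Finset.single_le_sum (f := A0) (fun s _ => hA00 s) (Finset.mem_univ s)
      have h3 : A0 s * (2 * c + B) ≤ (∑ s, A0 s) * (2 * c + B) :=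
        mul_le_mul_of_nonneg_right h2 (by positivity)
      have h5 : (1 - β s.1) * m - 2 * c ≤ (lo s.1 : ℚ) := by
        rw [hlo]
        exact Int.le_ceil _
      have h4 : ((∑ k, (W s.1 k : ℤ) * yv Φ q a k : ℤ) : ℚ) ≤ ((lo s.1 + C1 : ℤ) : ℚ) := by
        push_cast at h1 ⊢
        linarith
      have h6 : ∑ k, (W s.1 k : ℤ) * yv Φ q a k ≤ lo s.1 + C1 := by exact_mod_cast h4
      linarith
    · have h1 := hA1 a (hAmem a ha)
      constructor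
      · refine le_trans ?_ (h1 k.1)
        rw [hB']
        push_cast
        have : (0 : ℤ) ≤ κ.toNat + B + 2 * c * DD := by positivity
        linarith
      · -- the upper bound
        have h2 := deg_yv (Φ := Φ) q a
        have h3 : (Φ.dF k.1 : ℤ) * (yv Φ q a k.1 + 2 * c) ≤
            ∑ i, (Φ.dF i : ℤ) * (yv Φ q a i + 2 * c) :=
          Finset.single_le_sum (f := fun i => (Φ.dF i : ℤ) * (yv Φ q a i + 2 * c))
            (fun i _ => mul_nonneg (by positivity) (by linarith [h1 i])) (Finset.mem_univ k.1)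
        simp only [mul_add] at h3
        rw [Finset.sum_add_distrib, h2, ← Finset.sum_mul] at h3
        have h4 : (∑ i, (Φ.dF i : ℤ)) = DD := by
          rw [hDD]
          push_cast
          rfl
        rw [h4] at h3
        have h5 : (1 : ℤ) ≤ Φ.dF k.1 := by exact_mod_cast Φ.hd k.1
        have h6 : yv Φ q a k.1 + 2 * c ≤ (Φ.dF k.1 : ℤ) * (yv Φ q a k.1 + 2 * c) := by
          have h7 : 0 ≤ yv Φ q a k.1 + 2 * c := by linarith [h1 k.1]
          nlinarith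
        have h7 : (κ.toNat : ℤ) = κ := Int.toNat_of_nonneg hκ0
        have hm1 : (1 : ℤ) ≤ m := by exact_mod_cast hm
        rw [hB']
        push_cast
        rw [h7, hB]
        push_cast
        rw [hX] at hq2
        have h8 : (0 : ℤ) ≤ c := by positivity
        have h9 : (0 : ℤ) ≤ Φ.E := by positivity
        have h10 : (0 : ℤ) ≤ c * DD := by positivity
        have h11 : (2 * c : ℤ) * 1 ≤ 2 * c * m := mul_le_mul_of_nonneg_left hm1 (by positivity)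
        have h12 : (Φ.E : ℤ) * 1 ≤ Φ.E * m := mul_le_mul_of_nonneg_left hm1 h9
        have h13 : (2 * (c * DD) : ℤ) * 1 ≤ 2 * (c * DD) * m :=
          mul_le_mul_of_nonneg_left hm1 (by positivity)
        nlinarith
    · -- injectivity
      have h3 : (fun k => (yv Φ q a k : ℚ)) - (fun k => (yv Φ q b k : ℚ)) ∈ vectorSpan ℚ P := by
        rw [hP, Pool.Agent.Y169.TP.vectorSpan_eq (by rw [← hP]; exact hne)]
        refine ⟨?_, fun s hs => ?_⟩
        · rw [map_sub, dotq_yv, dotq_yv, deg_yv, deg_yv, sub_self]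
        · rw [← hP] at hs
          have h4 := congrFun h1 ⟨s, hs⟩
          dsimp only at h4
          have h5 : ∑ k, (W s k : ℤ) * yv Φ q a k = ∑ k, (W s k : ℤ) * yv Φ q b k := by linarith
          rw [map_sub, dotq, dotq, h5, sub_self]
      have h4 := hJ2 _ h3 fun k hk => by
        have h5 := congrFun h2 ⟨k, hk⟩
        dsimp only at h5
        rw [Pi.sub_apply, h5, sub_self]
      ext i
      have h5 := congrFun h4 i.succ
      rw [Pi.sub_apply, Pi.zero_apply, sub_eq_zero, yv_succ, yv_succ] at h5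
      have h6 : (Φ.ee i.succ : ℤ) * a i = (Φ.ee i.succ : ℤ) * b i := by exact_mod_cast h5
      have h7 : (Φ.ee i.succ : ℤ) ≠ 0 := by exact_mod_cast (Φ.ee_pos _).ne'
      exact_mod_cast mul_left_cancel₀ h7 h6
  have hfin := hC m 1 q N ω hlin (fun l => by rw [Pool.Agent.Y169.CH.Cvr.pw_one]; exact hsec l) (by
    rw [← hκ]
    rw [hX] at hq1
    exact_mod_cast hq1) A fun a ha => ?_
  · refine hfin.trans ?_
    rw [← hJ1]
    have h1 : Fintype.card J = J.card := Fintype.card_coe J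
    rw [h1] at hcard
    calc C0 * A.card ≤ C0 * ((C1 + 1) ^ Fintype.card I * (2 * B' + 1) ^ J.card * m ^ J.card) :=
          Nat.mul_le_mul_left _ hcard
      _ = _ := by
        rw [h1]
        ring
  · have ha' : ∀ s : ι, (1 - β s) * m - 2 * c ≤ ((∑ k, (W s k : ℤ) * yv Φ q a k : ℤ) : ℚ) := by
      intro s
      have h3 := ha s
      rw [dot_yv]
      have h4 : (((1 - β s) * m - 2 * c : ℚ) : ℝ) ≤
          ((((Φ.ee 0 * W s 0 : ℤ) * (q - ∑ b, (a b : ℤ)) +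
            ∑ b, (Φ.ee b.succ * W s b.succ : ℤ) * a b : ℤ) : ℚ) : ℝ) := by
        push_cast at h3 ⊢
        linarith
      exact_mod_cast h4
    refine Finset.mem_filter.2 ⟨Finset.mem_image.2 ⟨Finsupp.equivFunOnFinite a, ?_, by simp⟩, ha'⟩
    rw [Fintype.mem_piFinset]
    intro b
    rw [Finset.mem_range]
    change a b < _
    have h1 := hA1 a ha' 0
    rw [yv_zero] at h1
    have h2 : (1 : ℤ) ≤ Φ.ee 0 := by exact_mod_cast Φ.ee_pos 0
    have h3 : (a b : ℤ) ≤ ∑ b, (a b : ℤ) :=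
      Finset.single_le_sum (f := fun b => (a b : ℤ)) (fun _ _ => by positivity) (Finset.mem_univ b)
    have h4 : -(2 * c : ℤ) ≤ q - ∑ b, (a b : ℤ) := by
      by_contra hneg
      push Not at hneg
      have : (0 : ℤ) ≤ c := by positivity
      nlinarith
    have h5 : (a b : ℤ) < ((q + 2 * c + 1 : ℕ) : ℤ) := by
      push_cast
      linarith
    exact_mod_cast h5

end Pool.Agent.Y169.TP
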