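import Pool.Agent.Y169.TP.Cnt
import Pool.Agent.Y169.CH.Top

/-!
The Kodaira dimension of toroidal pairs: sections from the points of the polyhedron.
-/

set_option autoImplicit false
set_option linter.overlappingInstances false
set_option linter.unusedSectionVars false
set_option maxHeartbeats 1000000

open FF MvPolynomial Pool.Agent.W603.LV Pool.Agent.W602.GT Pool.Agent.W602.Cov
open Pool.Agent.W602.Cov.G Pool.Agent.TH152.AC Pool.Agent.TH122.AB
open Pool.Agent.Y169.TH Pool.Agent.Y169.TH.Cv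
open Pool.Agent.Y169.CH hiding Adm

namespace Pool.Agent.Y169.TP

/-- a section of `m (K + Δ) + j A` -/
def TSec {K : Type} [Field K] [Algebra ℂ K] (N : ℕ) (x : Fin (N + 1) → K)
    (F : Fin (N + 1) → MvPolynomial (Fin (N + 1)) ℂ) (dF : Fin (N + 1) → ℕ) {ι : Type}
    (W : ι → Fin (N + 1) → ℕ) (β : ι → ℝ) (S : Finset K) (m j : ℕ)
    (ω : (Fin N → Derivation ℂ K K) → K) : Prop :=
  IsPluri m ω ∧ ∀ P : Place ℂ K, Divisorial N P → ∀ v : Fin (N + 1) → ℕ,
    (∃ α : ℤ, Dat P F dF x α v) → ∀ D : Fin N → Derivation ℂ K K, (∀ c, DerReg P (D c)) →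
    (v = 0 → ω D = 0 ∨ ∃ s ∈ S, s ≠ 0 ∧ j * P.ord s ≤ P.ord (ω D)) ∧
    ∀ i c, 1 ≤ c → v = c • W i →
      ω D = 0 ∨ ∃ s ∈ S, s ≠ 0 ∧ (j : ℝ) * P.ord s - m * β i ≤ P.ord (ω D)

/-- `κ (K + Δ) ≥ h` -/
def TKod {K : Type} [Field K] [Algebra ℂ K] (N : ℕ) (x : Fin (N + 1) → K)
    (F : Fin (N + 1) → MvPolynomial (Fin (N + 1)) ℂ) (dF : Fin (N + 1) → ℕ) {ι : Type}
    (W : ι → Fin (N + 1) → ℕ) (β : ι → ℝ) (h : ℕ) : Prop :=
  ∃ m : ℕ, 0 < m ∧ ∃ ω : Fin (h + 1) → (Fin N → Derivation ℂ K K) → K,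
    (∀ b, TSec N x F dF W β {1} m 1 (ω b)) ∧
    ∃ D, ω 0 D ≠ 0 ∧ AlgebraicIndependent ℂ (fun b : Fin h => ω b.succ D / ω 0 D)

variable {d : ℕ} {Φ : Arr (d + 1)} {K : Type} [Field K] [Algebra ℂ K] {R : ℕ} (C : Cv Φ K R)

/-- **The Kodaira dimension.** -/
theorem kod_ge2 {ι : Type} [Fintype ι] {W : ι → Fin (d + 2) → ℕ} {β : ι → ℚ}
    (hβ : ∀ s, β s ≤ 1) (hne : (PiT Φ.dF W β).Nonempty) {h : ℕ}
    (hh : Module.finrank ℚ (vectorSpan ℚ (PiT Φ.dF W β)) = h) :
    TKod (d + 1) C.x Φ.F Φ.dF W (fun s => (β s : ℝ)) h := by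
  classical
  obtain ⟨y0, y, hy0, hy, hlin⟩ : ∃ (y0 : Fin (d + 2) → ℚ) (y : Fin h → Fin (d + 2) → ℚ),
      y0 ∈ PiT Φ.dF W β ∧ (∀ i, y i ∈ PiT Φ.dF W β) ∧
      LinearIndependent ℚ fun i => y i - y0 := by
    rw [PiT_eq] at hne hh ⊢
    exact Pool.Agent.Y169.TP.exists_points hne hh
  obtain ⟨p, hp⟩ : ∃ p : Fin (h + 1) → Fin (d + 2) → ℚ, p = Fin.cases y0 y := ⟨_, rfl⟩
  have hp0 : p 0 = y0 := by rw [hp]; rfl
  have hps : ∀ i : Fin h, p i.succ = y i := fun i => by rw [hp]; rfl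
  have hpP : ∀ b, p b ∈ PiT Φ.dF W β := by
    intro b
    refine Fin.cases ?_ (fun i => ?_) b
    · rw [hp0]
      exact hy0
    · rw [hps]
      exact hy i
  obtain ⟨T0, hT0, hden⟩ := exists_den fun x : Fin (h + 1) × Fin (d + 2) => p x.1 x.2
  choose w' hw' using hden
  obtain ⟨w, hw⟩ : ∃ w : Fin (h + 1) → Fin (d + 2) → ℤ, w = fun b k => w' (b, k) := ⟨_, rfl⟩
  obtain ⟨T, hT⟩ : ∃ T : ℕ, T = Φ.E * T0 := ⟨_, rfl⟩
  have hTpos : 0 < T := by
    rw [hT]
    exact Nat.mul_pos Φ.E_pos hT0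
  have hwT : ∀ b k, ((Φ.E * w b k : ℤ) : ℚ) = T * p b k := by
    intro b k
    rw [hT, hw]
    push_cast
    rw [mul_assoc, hw' (b, k)]
  -- the degrees
  have hdeg : ∀ b, ∑ k, (Φ.dF k : ℤ) * (Φ.E * w b k) = T * (∑ k, (Φ.dF k : ℤ) - (d + 2)) := by
    intro b
    have h1 : ((∑ k, (Φ.dF k : ℤ) * (Φ.E * w b k) : ℤ) : ℚ) =
        ((T * (∑ k, (Φ.dF k : ℤ) - (d + 2)) : ℤ) : ℚ) := by
      have h2 := (hpP b).1
      push_cast
      have h3 : ∀ k, (Φ.dF k : ℚ) * (Φ.E * w b k) = T * (Φ.dF k * p b k) := by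
        intro k
        have h4 := hwT b k
        push_cast at h4
        rw [h4]
        ring
      rw [Finset.sum_congr rfl fun k _ => h3 k, ← Finset.mul_sum, h2]
      push_cast
      ring
    exact_mod_cast h1
  obtain ⟨D0, hD0⟩ := exists_dual C.u_bas
  have hbw0 : bw D0 C.x = 1 := by
    rw [Pool.Agent.W930.CG.bw_one D0 C.x C.hx0]
    change (Matrix.of fun i j => D0 i (C.u j)).det = 1
    rw [hD0, Matrix.det_one]
  obtain ⟨Ex, hEx⟩ : ∃ Ex : Fin (h + 1) → K,
    Ex = fun b => ∏ k, aeval C.x (Φ.F k) ^ ((Φ.E : ℤ) * w b k - T) := ⟨_, rfl⟩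
  have hExne : ∀ b, Ex b ≠ 0 := by
    intro b
    rw [hEx]
    exact Finset.prod_ne_zero_iff.2 fun k _ => zpow_ne_zero _ (C.F_ne k)
  refine ⟨T, hTpos, fun b D => bw D C.x ^ T * Ex b, fun b => ⟨?_, ?_⟩, D0, ?_, ?_⟩
  · intro A D
    dsimp only
    rw [(bwa (d + 1) K).2.1 A D C.x, mul_pow]
    ring
  · intro P _ v ⟨α, hdat⟩ D hD
    have h1 := bw_reg_ord Φ.hS Φ.hh hdat hD
    have hEord : P.ord (Ex b) = ∑ k, ((Φ.E : ℤ) * w b k - T) * (Φ.dF k * α + v k) := by
      rw [hEx]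
      dsimp only
      rw [ord_prod' P Finset.univ _ fun k _ => zpow_ne_zero _ (C.F_ne k)]
      exact Finset.sum_congr rfl fun k _ => by rw [P.ord_zpow, hdat.hv]
    have h2 := (h1.pow T).mul (ge_ord P (Ex b))
    have h3 : ∑ k, ((Φ.E : ℤ) * w b k - T) * (Φ.dF k * α + v k) =
        α * (∑ k, (Φ.dF k : ℤ) * (Φ.E * w b k)) + ∑ k, ((Φ.E : ℤ) * w b k) * v k -
        T * α * ∑ k, (Φ.dF k : ℤ) - T * ∑ k, (v k : ℤ) := by
      rw [Finset.mul_sum, Finset.mul_sum, Finset.mul_sum, ← Finset.sum_add_distrib,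
        ← Finset.sum_sub_distrib, ← Finset.sum_sub_distrib]
      exact Finset.sum_congr rfl fun k _ => by ring
    rw [hEord, h3, hdeg] at h2
    have hTp : (T : ℚ) * ∑ k, (v k : ℚ) * p b k =
        ((∑ k, ((Φ.E : ℤ) * w b k) * v k : ℤ) : ℚ) := by
      rw [Finset.mul_sum]
      push_cast
      refine Finset.sum_congr rfl fun k _ => ?_
      have h8 := hwT b k
      push_cast at h8
      rw [h8]
      ring
    refine ⟨fun hv => ?_, fun s c hc hv => ?_⟩
    · dsimp only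
      rcases h2 with h2 | h2
      · exact Or.inl h2
      · right
        refine ⟨1, by simp, one_ne_zero, ?_⟩
        rw [P.ord_one, mul_zero]
        refine le_trans ?_ h2
        rw [if_pos hv, hv]
        simp only [Pi.zero_apply, Nat.cast_zero, mul_zero, Finset.sum_const_zero]
        push_cast
        nlinarith
    · dsimp only
      rcases h2 with h2 | h2
      · exact Or.inl h2
      · right
        refine ⟨1, by simp, one_ne_zero, ?_⟩
        rw [P.ord_one, Int.cast_zero, mul_zero, zero_sub]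
        have h5 := (hpP b).2 s
        have hcq : (1 : ℚ) ≤ c := by exact_mod_cast hc
        have h6 : (c : ℚ) * (1 - β s) ≤ ∑ k, (v k : ℚ) * p b k := by
          have h7 : ∑ k, (v k : ℚ) * p b k = c * ∑ k, (W s k : ℚ) * p b k := by
            rw [hv, Finset.mul_sum]
            refine Finset.sum_congr rfl fun k _ => ?_
            rw [Pi.smul_apply, smul_eq_mul]
            push_cast
            ring
          rw [h7]
          exact mul_le_mul_of_nonneg_left h5 (by positivity)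
        have h7 : (1 - β s) ≤ (c : ℚ) * (1 - β s) := by
          have h8 : 0 ≤ 1 - β s := by linarith [hβ s]
          nlinarith
        have h8 : (T : ℚ) * (1 - β s) ≤ ((∑ k, ((Φ.E : ℤ) * w b k) * v k : ℤ) : ℚ) := by
          rw [← hTp]
          exact mul_le_mul_of_nonneg_left (h7.trans h6) (by positivity)
        have h9 : (T : ℝ) * (1 - β s) ≤ ((∑ k, ((Φ.E : ℤ) * w b k) * v k : ℤ) : ℝ) := by
          have h10 : (((T : ℚ) * (1 - β s) : ℚ) : ℝ) ≤
              (((∑ k, ((Φ.E : ℤ) * w b k) * v k : ℤ) : ℚ) : ℝ) := by exact_mod_cast h8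
          push_cast at h10 ⊢
          exact h10
        have h11 : (∑ k, ((Φ.E : ℤ) * w b k) * v k) - T ≤
            P.ord (bw D C.x ^ T * Ex b) := by
          refine le_trans ?_ h2
          have h12 : (T : ℤ) * (if v = 0 then 0 else 1) ≤ T := by
            split_ifs
            · simp
            · simp
          push_cast
          nlinarith
        have h12 : ((∑ k, ((Φ.E : ℤ) * w b k) * v k - T : ℤ) : ℝ) ≤
            (P.ord (bw D C.x ^ T * Ex b) : ℝ) := by exact_mod_cast h11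
        rw [Int.cast_sub] at h12
        rw [Int.cast_natCast] at h12
        linarith
  · dsimp only
    rw [hbw0, one_pow, one_mul]
    exact hExne 0
  · -- the ratios
    obtain ⟨δ, hδ⟩ : ∃ δ : Fin h → Fin (d + 2) → ℤ, δ = fun b k => w b.succ k - w 0 k := ⟨_, rfl⟩
    have hδsum : ∀ b, ∑ k, (Φ.dF k : ℤ) * δ b k = 0 := by
      intro b
      have h1 := hdeg b.succ
      have h2 := hdeg 0
      have h3 : (Φ.E : ℤ) * ∑ k, (Φ.dF k : ℤ) * δ b k = 0 := by
        have h4 : (Φ.E : ℤ) * ∑ k, (Φ.dF k : ℤ) * δ b k =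
            ∑ k, (Φ.dF k : ℤ) * (Φ.E * w b.succ k) - ∑ k, (Φ.dF k : ℤ) * (Φ.E * w 0 k) := by
          rw [Finset.mul_sum, ← Finset.sum_sub_distrib]
          refine Finset.sum_congr rfl fun k _ => ?_
          rw [hδ]
          ring
        rw [h4, h1, h2, sub_self]
      exact (mul_eq_zero.1 h3).resolve_left (by exact_mod_cast Φ.E_pos.ne')
    have hratio : ∀ b : Fin h, bw D0 C.x ^ T * Ex b.succ / (bw D0 C.x ^ T * Ex 0) =
        ∏ i : Fin (d + 1), C.Y i ^ ((Φ.dF i.succ : ℤ) * δ b i.succ) := by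
      intro b
      rw [hbw0, one_pow, one_mul, one_mul, hEx]
      dsimp only
      rw [← Finset.prod_div_distrib]
      have h1 : ∀ k, aeval C.x (Φ.F k) ^ ((Φ.E : ℤ) * w b.succ k - T) /
          aeval C.x (Φ.F k) ^ ((Φ.E : ℤ) * w 0 k - T) =
          aeval C.x (Φ.G k) ^ ((Φ.dF k : ℤ) * δ b k) := by
        intro k
        rw [← zpow_sub₀ (C.F_ne k), ae_G, ← zpow_natCast (aeval C.x (Φ.F k)), ← zpow_mul]
        congr 1
        have h2 : (Φ.dF k : ℤ) * Φ.ee k = Φ.E := by exact_mod_cast Φ.d_ee k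
        rw [hδ, ← h2]
        ring
      rw [Finset.prod_congr rfl fun k _ => h1 k, Fin.prod_univ_succ]
      have h2 : (Φ.dF 0 : ℤ) * δ b 0 = - ∑ i : Fin (d + 1), (Φ.dF i.succ : ℤ) * δ b i.succ := by
        have h3 := hδsum b
        rw [Fin.sum_univ_succ] at h3
        linarith
      rw [h2, ← Finset.sum_neg_distrib, ← prod_zpow_sum (C.G_ne 0), ← Finset.prod_mul_distrib]
      refine Finset.prod_congr rfl fun i _ => ?_
      unfold Y
      rw [div_zpow, zpow_neg, div_eq_mul_inv, mul_comm]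
    change AlgebraicIndependent ℂ (fun b : Fin h =>
      bw D0 C.x ^ T * Ex b.succ / (bw D0 C.x ^ T * Ex 0))
    rw [funext hratio]
    refine laurent_ind C.bas_Y.1 C.Y_ne _ ?_
    rw [Fintype.linearIndependent_iff]
    intro g hg
    have h1 : ∀ i : Fin (d + 1), ∑ b, g b * (δ b i.succ : ℚ) = 0 := by
      intro i
      have h2 := congrFun hg i
      rw [Finset.sum_apply] at h2
      simp only [Pi.smul_apply, smul_eq_mul, Pi.zero_apply] at h2
      push_cast at h2
      have h3 : (Φ.dF i.succ : ℚ) * ∑ b, g b * (δ b i.succ : ℚ) = 0 := by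
        rw [Finset.mul_sum, ← h2]
        exact Finset.sum_congr rfl fun b _ => by ring
      exact (mul_eq_zero.1 h3).resolve_left (by exact_mod_cast (Φ.hd _).ne')
    have h0 : ∑ b, g b * (δ b 0 : ℚ) = 0 := by
      have h3 : (Φ.dF 0 : ℚ) * ∑ b, g b * (δ b 0 : ℚ) = 0 := by
        have h4 : ∀ b, (Φ.dF 0 : ℚ) * δ b 0 = - ∑ i : Fin (d + 1), (Φ.dF i.succ : ℚ) * δ b i.succ := by
          intro b
          have h5 := hδsum b
          rw [Fin.sum_univ_succ] at h5
          have h6 : (((Φ.dF 0 : ℤ) * δ b 0 + ∑ i : Fin (d + 1), (Φ.dF i.succ : ℤ) * δ b i.succ : ℤ) : ℚ)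
              = 0 := by
            rw [h5]
            rfl
          push_cast at h6
          linarith
        calc (Φ.dF 0 : ℚ) * ∑ b, g b * (δ b 0 : ℚ) = ∑ b, g b * ((Φ.dF 0 : ℚ) * δ b 0) := by
              rw [Finset.mul_sum]
              exact Finset.sum_congr rfl fun b _ => by ring
          _ = ∑ b, ∑ i : Fin (d + 1), -((Φ.dF i.succ : ℚ) * (g b * δ b i.succ)) := by
              refine Finset.sum_congr rfl fun b _ => ?_
              rw [h4, mul_neg, Finset.mul_sum, ← Finset.sum_neg_distrib]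
              exact Finset.sum_congr rfl fun i _ => by ring
          _ = ∑ i : Fin (d + 1), -((Φ.dF i.succ : ℚ) * ∑ b, g b * δ b i.succ) := by
              rw [Finset.sum_comm]
              refine Finset.sum_congr rfl fun i _ => ?_
              rw [Finset.sum_neg_distrib, Finset.mul_sum]
          _ = 0 := by
              refine Finset.sum_eq_zero fun i _ => ?_
              rw [h1, mul_zero, neg_zero]
      exact (mul_eq_zero.1 h3).resolve_left (by exact_mod_cast (Φ.hd _).ne')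
    have h2 : ∀ k, ∑ b, g b * (δ b k : ℚ) = 0 := fun k => Fin.cases h0 h1 k
    refine Fintype.linearIndependent_iff.1 hlin g ?_
    funext k
    rw [Finset.sum_apply, Pi.zero_apply]
    have h3 : ∀ b, (T : ℚ) * ((y b - y0) k) = Φ.E * δ b k := by
      intro b
      have h4 := hwT b.succ k
      have h5 := hwT 0 k
      rw [hps] at h4
      rw [hp0] at h5
      rw [Pi.sub_apply, mul_sub, ← h4, ← h5, hδ]
      push_cast
      ring
    have h4 : (T : ℚ) * ∑ b, (g b • (y b - y0)) k = 0 := by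
      calc (T : ℚ) * ∑ b, (g b • (y b - y0)) k = ∑ b, g b * ((T : ℚ) * ((y b - y0) k)) := by
            rw [Finset.mul_sum]
            refine Finset.sum_congr rfl fun b _ => ?_
            rw [Pi.smul_apply, smul_eq_mul]
            ring
        _ = Φ.E * ∑ b, g b * δ b k := by
            rw [Finset.mul_sum]
            refine Finset.sum_congr rfl fun b _ => ?_
            rw [h3]
            ring
        _ = 0 := by rw [h2, mul_zero]
    exact (mul_eq_zero.1 h4).resolve_left (by exact_mod_cast hTpos.ne')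

end Pool.Agent.Y169.TP
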