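import Pool.Agent.Y169.TP.Kod
import Pool.Agent.Y169.TH.Mak

/-!
A linear change of the coordinates.
-/

set_option autoImplicit false
set_option linter.overlappingInstances false
set_option linter.unusedSectionVars false
set_option maxHeartbeats 1000000

open FF MvPolynomial Pool.Agent.W603.LV Pool.Agent.W602.GT Pool.Agent.W602.Cov
open Pool.Agent.W602.Cov.G Pool.Agent.TH122.AB Pool.Agent.Y169.TH Pool.Agent.Y169.TH.Cv
open Pool.Agent.Y169.CH hiding Adm

namespace Pool.Agent.Y169.TP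

variable {d R : ℕ} {K : Type} [Field K] [Algebra ℂ K]

theorem dat_tr {n : ℕ} {P : Place ℂ K} {F G : Fin (n + 1) → MvPolynomial (Fin (n + 1)) ℂ}
    {dF : Fin (n + 1) → ℕ} {x y : Fin (n + 1) → K} {t : K} (ht : t ≠ 0) (hy : ∀ l, y l ≠ 0)
    (hGy : ∀ k, aeval y (G k) ≠ 0)
    (h1 : ∀ μ : ℤ, (∀ l, Ge P μ (x l)) → ∀ l, Ge P μ (t * y l))
    (h2 : ∀ μ : ℤ, (∀ l, Ge P μ (t * y l)) → ∀ l, Ge P μ (x l))
    (hF : ∀ k, aeval x (F k) = t ^ dF k * aeval y (G k)) {α : ℤ} {v : Fin (n + 1) → ℕ}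
    (h : Dat P F dF x α v) : Dat P G dF y (α - P.ord t) v := by
  have h3 : ∀ l, α ≤ P.ord (t * y l) := fun l =>
    (h1 α (fun l => Or.inr (h.ha1 l)) l).resolve_left (mul_ne_zero ht (hy l))
  refine ⟨hy, fun l => ?_, ?_, hGy, fun k => ?_⟩
  · have h4 := h3 l
    rw [P.ord_mul ht (hy l)] at h4
    linarith
  · by_contra hcon
    push Not at hcon
    obtain ⟨j, hj⟩ := h.ha2
    have h4 := (h2 (α + 1) (fun l => by
      right
      have h5 := h3 l
      have h6 := hcon l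
      rw [P.ord_mul ht (hy l)] at h5 ⊢
      omega) j).resolve_left (h.hx j)
    omega
  · have h4 := h.hv k
    rw [hF, P.ord_mul (pow_ne_zero _ ht) (hGy k), P.ord_pow] at h4
    linear_combination h4

/-- **The cover.** -/
theorem exists_cv2 {x : Fin (d + 2) → K} (hx0 : x 0 ≠ 0)
    (hbas : IsTranscendenceBasis ℂ fun b : Fin (d + 1) => x b.succ / x 0)
    {F : Fin (d + 2) → MvPolynomial (Fin (d + 2)) ℂ} {dF : Fin (d + 2) → ℕ} (hd : ∀ k, 0 < dF k)
    (hh : ∀ k, (F k).IsHomogeneous (dF k)) (hS : Snc F) {z : Fin R → K} {M : Fin R → ℕ}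
    (hM : ∀ j, 0 < M j) {a : Fin R → Fin (d + 2) → ℕ}
    (hz : ∀ j, z j ^ M j = ∏ k, (aeval x (F k) / x 0 ^ dF k) ^ a j k)
    (hdiv : ∀ j, M j ∣ ∑ k, a j k * dF k)
    (hgen : IntermediateField.adjoin ℂ
      (Set.range (fun b : Fin (d + 1) => x b.succ / x 0) ∪ Set.range z) = ⊤) :
    ∃ Φ : Arr (d + 1), Φ.dF = dF ∧ ∃ C : Cv Φ K R, C.M = M ∧ C.a = a ∧
      ∀ (P : Place ℂ K) (v : Fin (d + 2) → ℕ),
        (∃ α, Dat P F dF x α v) ↔ ∃ α, Dat P Φ.F Φ.dF C.x α v := by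
  classical
  obtain ⟨q, hq, hqc⟩ := exists_sh2 hh (snc_ne hS)
  obtain ⟨x', hx'⟩ : ∃ x' : Fin (d + 2) → K, x' = shx q x := ⟨_, rfl⟩
  obtain ⟨F', hF'⟩ : ∃ F' : Fin (d + 2) → MvPolynomial (Fin (d + 2)) ℂ,
    F' = fun k => shF q 1 (F k) := ⟨_, rfl⟩
  have hxx' : ∀ j, x j = x' j + algebraMap ℂ K (q j) * x' (Fin.last (d + 1)) := by
    intro j
    rw [hx', shx_last hq]
    unfold shx
    ring
  have hev : ∀ k, aeval x' (F' k) = aeval x (F k) := fun k => by
    rw [hx', hF']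
    have h1 := aeval_shF hq x 1 (F k)
    rwa [map_one, one_mul] at h1
  have hx'0 : x' 0 ≠ 0 := by
    intro h0
    rw [hx'] at h0
    have h1 : aeval (fun b : Fin (d + 1) => x b.succ / x 0) (1 - C (q 0) * X (Fin.last d)) = 0 := by
      rw [map_sub, map_one, map_mul, aeval_C, aeval_X]
      have h3 : x 0 - algebraMap ℂ K (q 0) * x (Fin.last (d + 1)) = 0 := h0
      have h4 : (Fin.last d).succ = Fin.last (d + 1) := rfl
      rw [h4]
      field_simp
      linear_combination h3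
    have h2 := (injective_iff_map_eq_zero _).1 hbas.1 _ h1
    have h3 := congrArg (eval (0 : Fin (d + 1) → ℂ)) h2
    simp at h3
  obtain ⟨ρ, hρ⟩ : ∃ ρ : K, ρ = x 0 / x' 0 := ⟨_, rfl⟩
  have hρ0 : ρ ≠ 0 := by
    rw [hρ]
    exact div_ne_zero hx0 hx'0
  have hkey : ∀ L : IntermediateField ℂ K, (∀ b : Fin (d + 1), x' b.succ / x' 0 ∈ L) → ∀ j,
      x j / x' 0 ∈ L := by
    intro L hL j
    have h1 : ∀ j, x' j / x' 0 ∈ L := by
      intro j
      refine Fin.cases ?_ (fun l => hL l) j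
      rw [div_self hx'0]
      exact L.one_mem
    have h2 : x j / x' 0 = x' j / x' 0 +
        algebraMap ℂ K (q j) * (x' (Fin.last (d + 1)) / x' 0) := by
      rw [hxx' j]
      ring
    rw [h2]
    exact L.add_mem (h1 j) (L.mul_mem (L.algebraMap_mem _) (h1 _))
  have hkey2 : ∀ L : IntermediateField ℂ K, (∀ b : Fin (d + 1), x' b.succ / x' 0 ∈ L) →
      ∀ b : Fin (d + 1), x b.succ / x 0 ∈ L := by
    intro L hL b
    have h1 : x b.succ / x 0 = (x b.succ / x' 0) / (x 0 / x' 0) :=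
      (div_div_div_cancel_right₀ hx'0 _ _).symm
    rw [h1]
    exact L.div_mem (hkey L hL _) (hkey L hL _)
  obtain ⟨X, hX⟩ : ∃ X : Fin (d + 2) → K, X = fun j => x' j / x' 0 := ⟨_, rfl⟩
  have hX0 : X 0 = 1 := by
    rw [hX]
    exact div_self hx'0
  have hXs : ∀ b : Fin (d + 1), X b.succ = x' b.succ / x' 0 := fun b => by rw [hX]
  have hbas' : IsTranscendenceBasis ℂ fun b : Fin (d + 1) => X b.succ := by
    refine basis_of_le hbas ?_
    rw [IntermediateField.adjoin_le_iff]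
    rintro _ ⟨b, rfl⟩
    refine hkey2 _ (fun b' => ?_) b
    rw [← hXs]
    exact IntermediateField.subset_adjoin ℂ _ ⟨b', rfl⟩
  have hFX : ∀ k, aeval X (F' k) = aeval x (F k) / x' 0 ^ dF k := by
    intro k
    have h1 : (F' k).IsHomogeneous (dF k) := by
      rw [hF']
      exact shF_hom _ _ (hh k)
    rw [eq_div_iff (pow_ne_zero _ hx'0), mul_comm, ← aeval_smul_form h1, ← hev]
    congr 2
    funext l
    rw [hX, mul_div_cancel₀ _ hx'0]
  obtain ⟨s, hs⟩ : ∃ s : Fin R → ℕ, s = fun j => (∑ k, a j k * dF k) / M j := ⟨_, rfl⟩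
  have hsM : ∀ j, s j * M j = ∑ k, a j k * dF k := fun j => by
    rw [hs]
    exact Nat.div_mul_cancel (hdiv j)
  let Φ : Arr (d + 1) :=
    { F := F'
      dF := dF
      hd := hd
      hh := fun k => by
        rw [hF']
        exact shF_hom _ _ (hh k)
      hS := by
        rw [hF']
        exact snc_sh hq hS
      hI := fun k => ⟨Finsupp.single (Fin.last (d + 1)) (dF k), by
        rw [mem_support_iff, hF']
        exact hqc k, by
        rw [Finsupp.single_apply, if_neg]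
        exact (Fin.succ_ne_zero (Fin.last d))⟩ }
  obtain ⟨C, hCx, hCM, hCa⟩ : ∃ C : Cv Φ K R, C.x = X ∧ C.M = M ∧ C.a = a := by
    refine ⟨⟨X, hX0, hbas', fun j => z j * ρ ^ s j, M, hM, a, fun j => ?_, hdiv, ?_⟩,
      rfl, rfl, rfl⟩
    · change (z j * ρ ^ s j) ^ M j = ∏ k, aeval X (F' k) ^ a j k
      rw [mul_pow, hz, ← pow_mul, hsM, ← Finset.prod_pow_eq_pow_sum, ← Finset.prod_mul_distrib]
      refine Finset.prod_congr rfl fun k _ => ?_
      rw [hFX, mul_comm (a j k), pow_mul ρ, ← mul_pow, hρ]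
      congr 1
      rw [div_pow]
      field_simp
    · rw [eq_top_iff, ← hgen, IntermediateField.adjoin_le_iff]
      obtain ⟨L, hL⟩ : ∃ L, L = IntermediateField.adjoin ℂ
        (Set.range (fun b : Fin (d + 1) => X b.succ) ∪ Set.range fun j => z j * ρ ^ s j) := ⟨_, rfl⟩
      rw [← hL]
      have hu : ∀ b : Fin (d + 1), x' b.succ / x' 0 ∈ L := fun b => by
        rw [hL, ← hXs]
        exact IntermediateField.subset_adjoin ℂ _ (Or.inl ⟨b, rfl⟩)
      rintro _ (⟨b, rfl⟩ | ⟨j, rfl⟩)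
      · exact hkey2 L hu b
      · have h1 : z j * ρ ^ s j ∈ L := by
          rw [hL]
          exact IntermediateField.subset_adjoin ℂ _ (Or.inr ⟨j, rfl⟩)
        have h2 : ρ ^ s j ∈ L := by
          have h3 : ρ ∈ L := by
            rw [hρ]
            exact hkey L hu 0
          exact pow_mem h3 _
        have h3 := L.div_mem h1 h2
        rwa [mul_div_cancel_right₀ _ (pow_ne_zero _ hρ0)] at h3
  refine ⟨Φ, rfl, C, hCM, hCa, fun P v => ?_⟩
  have hXne : ∀ l, X l ≠ 0 := by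
    rw [← hCx]
    exact C.x_ne
  have hFXne : ∀ k, aeval X (F' k) ≠ 0 := by
    rw [← hCx]
    exact C.F_ne
  have hxne : ∀ l, x l ≠ 0 := by
    intro l
    refine Fin.cases hx0 (fun b => ?_) l
    intro h0
    refine hbas.1.ne_zero b ?_
    rw [h0, zero_div]
  have hFxne : ∀ k, aeval x (F k) ≠ 0 := by
    intro k h0
    apply hFXne k
    rw [hFX, h0, zero_div]
  have hx'X : ∀ l, x' 0 * X l = x' l := fun l => by
    rw [hX]
    exact mul_div_cancel₀ _ hx'0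
  have hg1 : ∀ μ : ℤ, (∀ l, Ge P μ (x l)) → ∀ l, Ge P μ (x' l) := by
    intro μ h l
    have h1 : x' l = x l - algebraMap ℂ K (q l) * x (Fin.last (d + 1)) := by
      rw [hx']
      rfl
    rw [h1]
    have h2 := (Ge.const (P := P) (q l)).mul (h (Fin.last (d + 1)))
    rw [zero_add] at h2
    exact (h l).sub h2
  have hg2 : ∀ μ : ℤ, (∀ l, Ge P μ (x' l)) → ∀ l, Ge P μ (x l) := by
    intro μ h l
    rw [hxx' l]
    have h2 := (Ge.const (P := P) (q l)).mul (h (Fin.last (d + 1)))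
    rw [zero_add] at h2
    exact (h l).add h2
  have hFX' : ∀ k, aeval x (F k) = x' 0 ^ dF k * aeval X (F' k) := by
    intro k
    rw [hFX, mul_div_cancel₀ _ (pow_ne_zero _ hx'0)]
  rw [hCx]
  constructor
  · rintro ⟨α, h⟩
    refine ⟨_, dat_tr hx'0 hXne hFXne (fun μ h l => ?_) (fun μ h => ?_) hFX' h⟩
    · rw [hx'X]
      exact hg1 μ h l
    · simp only [hx'X] at h
      exact hg2 μ h
  · rintro ⟨α, h⟩
    refine ⟨_, dat_tr (inv_ne_zero hx'0) hxne hFxne (fun μ h l => ?_) (fun μ h l => ?_)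
      (fun k => ?_) h⟩
    · have h1 : ∀ l, Ge P (μ + P.ord (x' 0)) (x' l) := fun l => by
        have h2 := (h l).mul (ge_ord P (x' 0))
        rwa [mul_comm, hx'X] at h2
      have h2 := (ge_ord P (x' 0)⁻¹).mul (hg2 _ h1 l)
      rw [P.ord_inv] at h2
      have h3 : - P.ord (x' 0) + (μ + P.ord (x' 0)) = μ := by ring
      rwa [h3] at h2
    · have h1 : ∀ l, Ge P (μ + P.ord (x' 0)) (x l) := fun l => by
        have h2 := (ge_ord P (x' 0)).mul (h l)
        rw [mul_inv_cancel_left₀ hx'0] at h2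
        rwa [add_comm] at h2
      have h2 := (ge_ord P (x' 0)⁻¹).mul (hg1 _ h1 l)
      rw [P.ord_inv] at h2
      have h3 : - P.ord (x' 0) + (μ + P.ord (x' 0)) = μ := by ring
      rw [h3] at h2
      have h4 : X l = (x' 0)⁻¹ * x' l := by
        rw [hX]
        exact div_eq_inv_mul _ _
      rw [h4]
      exact h2
    · rw [hFX', ← mul_assoc, ← mul_pow, inv_mul_cancel₀ hx'0, one_pow, one_mul]

/-- pseudo-effective -/
def TPsef (N : ℕ) (x : Fin (N + 1) → K) (F : Fin (N + 1) → MvPolynomial (Fin (N + 1)) ℂ)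
    (dF : Fin (N + 1) → ℕ) {ι : Type} (W : ι → Fin (N + 1) → ℕ) (β : ι → ℝ) : Prop :=
  ∃ S : Finset K, ∀ M : ℕ, ∃ j : ℕ, 1 ≤ j ∧ ∃ ω : (Fin N → Derivation ℂ K K) → K, ω ≠ 0 ∧
    TSec N x F dF W β S (j * M) j ω

/-- `ν (K + Δ) ≤ h` -/
def TNum (N : ℕ) (x : Fin (N + 1) → K) (F : Fin (N + 1) → MvPolynomial (Fin (N + 1)) ℂ)
    (dF : Fin (N + 1) → ℕ) {ι : Type} (W : ι → Fin (N + 1) → ℕ) (β : ι → ℝ) (h : ℕ) : Prop :=
  ∀ S : Finset K, ∃ C : ℕ, ∀ m M : ℕ, 1 ≤ m →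
    (∃ ω : Fin M → (Fin N → Derivation ℂ K K) → K, LinearIndependent ℂ ω ∧
      ∀ l, TSec N x F dF W β S m 1 (ω l)) → M ≤ C * m ^ h

theorem tsec_tr {N : ℕ} {x y : Fin (N + 1) → K}
    {F G : Fin (N + 1) → MvPolynomial (Fin (N + 1)) ℂ} {dF dG : Fin (N + 1) → ℕ}
    (h : ∀ (P : Place ℂ K) (v : Fin (N + 1) → ℕ),
      (∃ α, Dat P F dF x α v) ↔ ∃ α, Dat P G dG y α v) {ι : Type} (W : ι → Fin (N + 1) → ℕ)
    (β : ι → ℝ) : TSec N x F dF W β = TSec N y G dG W β := by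
  funext S m j ω
  apply propext
  unfold TSec
  refine and_congr_right fun _ => forall_congr' fun P => forall_congr' fun _ =>
    forall_congr' fun v => ?_
  rw [h P v]

theorem tsec_tsc {R : ℕ} {Φ : Arr (d + 1)} (C : Cv Φ K R) {ι : Type} {W : ι → Fin (d + 2) → ℕ}
    {β : ι → ℝ} {S : Finset K} {m j : ℕ} {ω : (Fin (d + 1) → Derivation ℂ K K) → K}
    (h : TSec (d + 1) C.x Φ.F Φ.dF W β S m j ω) : TSc C W β (pw S j) m ω := by
  refine ⟨h.1, fun P α v hdat => ⟨fun hv => ⟨h.1, ?_⟩, fun s c hc hv => ⟨h.1, ?_⟩⟩⟩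
  · intro P' hP' hdiv D hD
    rw [Set.mem_singleton_iff] at hP'
    subst hP'
    refine ((h.2 P' hdiv v ⟨α, hdat⟩ D hD).1 hv).imp id ?_
    rintro ⟨s, hs, hs0, hle⟩
    refine ⟨s ^ j, mem_pw.2 ⟨s, hs, rfl⟩, pow_ne_zero _ hs0, ?_⟩
    rw [P'.ord_pow, mul_zero, sub_zero]
    exact_mod_cast hle
  · intro P' hP' hdiv D hD
    rw [Set.mem_singleton_iff] at hP'
    subst hP'
    refine ((h.2 P' hdiv v ⟨α, hdat⟩ D hD).2 s c hc hv).imp id ?_
    rintro ⟨s, hs, hs0, hle⟩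
    refine ⟨s ^ j, mem_pw.2 ⟨s, hs, rfl⟩, pow_ne_zero _ hs0, ?_⟩
    rw [P'.ord_pow]
    push_cast
    exact hle

theorem tsec_one {R : ℕ} {Φ : Arr (d + 1)} (C : Cv Φ K R) {ι : Type} {W : ι → Fin (d + 2) → ℕ}
    {β : ι → ℝ} {S : Finset K} {m : ℕ} {ω : (Fin (d + 1) → Derivation ℂ K K) → K}
    (h : TSec (d + 1) C.x Φ.F Φ.dF W β S m 1 ω) : TSc C W β S m ω := by
  have h1 := tsec_tsc C h
  rwa [Pool.Agent.Y169.CH.Cvr.pw_one] at h1

theorem tpsef_of_kod {N : ℕ} {x : Fin (N + 1) → K}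
    {F : Fin (N + 1) → MvPolynomial (Fin (N + 1)) ℂ} {dF : Fin (N + 1) → ℕ} {ι : Type}
    {W : ι → Fin (N + 1) → ℕ} {β : ι → ℝ} (hβ : ∀ s, 0 ≤ β s) {h : ℕ}
    (hk : TKod N x F dF W β h) : TPsef N x F dF W β := by
  classical
  obtain ⟨m, hm, ω, hω, D, hD, -⟩ := hk
  refine ⟨{1}, fun M => ⟨m, hm, fun D => ω 0 D ^ M, ?_, ?_, ?_⟩⟩
  · intro h0
    exact pow_ne_zero M hD (congrFun h0 D)
  · intro A D
    have h1 := (hω 0).1 A D
    dsimp only
    rw [h1, mul_pow, ← pow_mul]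
  · intro P hP v hv D hD
    have h1 := (hω 0).2 P hP v hv D hD
    refine ⟨fun h0 => ?_, fun s c hc h0 => ?_⟩
    · by_cases hz : ω 0 D = 0
      · by_cases hM : M = 0
        · right
          refine ⟨1, by simp, one_ne_zero, ?_⟩
          dsimp only
          rw [hM, pow_zero, P.ord_one, mul_zero]
        · left
          dsimp only
          rw [hz, zero_pow hM]
      · right
        obtain ⟨s, hs, -, hle⟩ := (h1.1 h0).resolve_left hz
        rw [Finset.mem_singleton] at hs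
        subst hs
        refine ⟨1, by simp, one_ne_zero, ?_⟩
        dsimp only
        rw [P.ord_pow, P.ord_one, mul_zero]
        rw [P.ord_one, mul_zero] at hle
        positivity
    · by_cases hz : ω 0 D = 0
      · by_cases hM : M = 0
        · right
          refine ⟨1, by simp, one_ne_zero, ?_⟩
          dsimp only
          rw [hM, pow_zero, P.ord_one]
          simp
        · left
          dsimp only
          rw [hz, zero_pow hM]
      · right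
        obtain ⟨s', hs, -, hle⟩ := (h1.2 s c hc h0).resolve_left hz
        rw [Finset.mem_singleton] at hs
        subst hs
        refine ⟨1, by simp, one_ne_zero, ?_⟩
        dsimp only
        rw [P.ord_pow, P.ord_one, Int.cast_zero, mul_zero, zero_sub]
        rw [P.ord_one, Int.cast_zero, mul_zero, zero_sub] at hle
        have h2 := mul_le_mul_of_nonneg_left hle (show (0 : ℝ) ≤ M by positivity)
        push_cast
        linarith

theorem ne_of_bas {x : Fin (d + 2) → K} (hx0 : x 0 ≠ 0)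
    (hbas : IsTranscendenceBasis ℂ fun b : Fin (d + 1) => x b.succ / x 0)
    {F : Fin (d + 2) → MvPolynomial (Fin (d + 2)) ℂ} {dF : Fin (d + 2) → ℕ} (hd : ∀ k, 0 < dF k)
    (hh : ∀ k, (F k).IsHomogeneous (dF k)) (hS : Snc F) :
    (∀ l, x l ≠ 0) ∧ ∀ k, aeval x (F k) ≠ 0 := by
  have hxne : ∀ l, x l ≠ 0 := by
    intro l
    refine Fin.cases hx0 (fun b => ?_) l
    intro h0
    refine hbas.1.ne_zero b ?_
    rw [h0, zero_div]
  refine ⟨hxne, fun k h0 => ?_⟩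
  obtain ⟨y, hy⟩ : ∃ y : Fin (d + 2) → K, y = fun l => x l / x 0 := ⟨_, rfl⟩
  have hy0 : y 0 = 1 := by
    rw [hy]
    exact div_self hx0
  have h1 : aeval x (F k) = x 0 ^ dF k * aeval y (F k) := by
    rw [← aeval_smul_form (hh k)]
    congr 2
    funext l
    rw [hy]
    dsimp only
    rw [mul_div_cancel₀ _ hx0]
  have h2 : aeval y (F k) = 0 := by
    rw [h0] at h1
    exact (mul_eq_zero.1 h1.symm).resolve_left (pow_ne_zero _ hx0)
  rw [← aeval_deh hy0] at h2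
  have h3 : (fun b : Fin (d + 1) => y b.succ) = fun b => x b.succ / x 0 := by rw [hy]
  rw [h3] at h2
  exact deh_ne (hh k) (snc_ne hS k) ((injective_iff_map_eq_zero _).1 hbas.1 _ h2)

/-- **The main theorem.** -/
theorem main {x : Fin (d + 2) → K} (hx0 : x 0 ≠ 0)
    (hbas : IsTranscendenceBasis ℂ fun b : Fin (d + 1) => x b.succ / x 0)
    {F : Fin (d + 2) → MvPolynomial (Fin (d + 2)) ℂ} {dF : Fin (d + 2) → ℕ} (hd : ∀ k, 0 < dF k)
    (hh : ∀ k, (F k).IsHomogeneous (dF k)) (hS : Snc F) {z : Fin R → K} {M : Fin R → ℕ}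
    (hM : ∀ j, 0 < M j) {a : Fin R → Fin (d + 2) → ℕ}
    (hz : ∀ j, z j ^ M j = ∏ k, (aeval x (F k) / x 0 ^ dF k) ^ a j k)
    (hdiv : ∀ j, M j ∣ ∑ k, a j k * dF k)
    (hgen : IntermediateField.adjoin ℂ
      (Set.range (fun b : Fin (d + 1) => x b.succ / x 0) ∪ Set.range z) = ⊤)
    {ι : Type} [Fintype ι] {W : ι → Fin (d + 2) → ℕ} {β : ι → ℚ} (hW : ∀ s, Prm M a (W s))
    (hax : ∀ k, ∃ s e, 0 < e ∧ W s = Pi.single k e) (hβ0 : ∀ s, 0 ≤ β s) (hβ : ∀ s, β s ≤ 1) :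
    (TPsef (d + 1) x F dF W (fun s => (β s : ℝ)) ↔ (PiT dF W β).Nonempty) ∧
    (TKod (d + 1) x F dF W (fun s => (β s : ℝ)) 0 ↔ (PiT dF W β).Nonempty) ∧
    ((PiT dF W β).Nonempty →
      TKod (d + 1) x F dF W (fun s => (β s : ℝ))
        (Module.finrank ℚ (vectorSpan ℚ (PiT dF W β))) ∧
      TNum (d + 1) x F dF W (fun s => (β s : ℝ))
        (Module.finrank ℚ (vectorSpan ℚ (PiT dF W β)))) := by
  classical
  obtain ⟨Φ, rfl, C, rfl, rfl, htr⟩ := exists_cv2 hx0 hbas hd hh hS hM hz hdiv hgen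
  have htr' := fun W' β' => tsec_tr (ι := ι) htr W' β'
  have hβ0' : ∀ s, (0 : ℝ) ≤ (β s : ℝ) := fun s => by exact_mod_cast hβ0 s
  have h1 : TPsef (d + 1) x F Φ.dF W (fun s => (β s : ℝ)) → (PiT Φ.dF W β).Nonempty := by
    rintro ⟨S, hpsef⟩
    by_contra hcon
    rw [Set.not_nonempty_iff_eq_empty] at hcon
    obtain ⟨M0, hM0⟩ := not_psef2 C hW hax hβ hcon S
    obtain ⟨j, hj, ω, hω0, hω⟩ := hpsef M0
    rw [htr'] at hω
    exact hω0 (hM0 j hj ω (tsec_tsc C hω))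
  have h2 : (PiT Φ.dF W β).Nonempty →
      TKod (d + 1) x F Φ.dF W (fun s => (β s : ℝ))
        (Module.finrank ℚ (vectorSpan ℚ (PiT Φ.dF W β))) := by
    intro hne
    have h3 := kod_ge2 C hβ hne rfl
    unfold TKod at h3 ⊢
    rw [htr']
    exact h3
  have h3 : ∀ h, TKod (d + 1) x F Φ.dF W (fun s => (β s : ℝ)) h →
      TKod (d + 1) x F Φ.dF W (fun s => (β s : ℝ)) 0 := by
    rintro h ⟨m, hm, ω, hω, D, hD, -⟩
    refine ⟨m, hm, fun _ => ω 0, fun _ => hω 0, D, hD, ?_⟩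
    exact algebraicIndependent_empty_type
  refine ⟨⟨h1, fun hne => tpsef_of_kod hβ0' (h2 hne)⟩,
    ⟨fun hk => h1 (tpsef_of_kod hβ0' hk), fun hne => h3 _ (h2 hne)⟩,
    fun hne => ⟨h2 hne, fun S => ?_⟩⟩
  obtain ⟨C1, hC1⟩ := num_le2 C hW hax hβ hne S
  refine ⟨C1, fun m N hm ⟨ω, hlin, hω⟩ => hC1 m N hm ω hlin fun l => ?_⟩
  have h4 := hω l
  rw [htr'] at h4
  exact tsec_one C h4

end Pool.Agent.Y169.TP
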