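import Pool.Agent.Y169.TP.Mak

/-!
Real coefficients.
-/

set_option autoImplicit false
set_option linter.overlappingInstances false
set_option linter.unusedSectionVars false
set_option maxHeartbeats 1000000

open FF MvPolynomial Pool.Agent.W603.LV Pool.Agent.W602.GT Pool.Agent.W602.Cov
open Pool.Agent.W602.Cov.G Pool.Agent.TH122.AB Pool.Agent.Y169.TH Pool.Agent.Y169.TH.Cv
open Pool.Agent.TH152.AC
open Pool.Agent.Y169.CH hiding Adm

namespace Pool.Agent.Y169.TP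

/-- the real polyhedron -/
def PiR {N : ℕ} (dF : Fin N → ℕ) {ι : Type} (W : ι → Fin N → ℕ) (β : ι → ℝ) :
    Set (Fin N → ℝ) :=
  {y | ∑ k, (dF k : ℝ) * y k = ∑ k, (dF k : ℝ) - N ∧ ∀ s, 1 - β s ≤ ∑ k, (W s k : ℝ) * y k}

variable {K : Type} [Field K] [Algebra ℂ K]

/-- `K + Δ` is `ℝ`-linearly equivalent to an effective divisor -/
def TEff (N : ℕ) (x : Fin (N + 1) → K) (F : Fin (N + 1) → MvPolynomial (Fin (N + 1)) ℂ)
    (dF : Fin (N + 1) → ℕ) {ι : Type} (W : ι → Fin (N + 1) → ℕ) (β : ι → ℝ) : Prop :=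
  ∃ ω : (Fin N → Derivation ℂ K K) → K, ω ≠ 0 ∧ IsPluri 1 ω ∧
    ∃ (L : ℕ) (r : Fin L → ℝ) (f : Fin L → K), (∀ i, f i ≠ 0) ∧
    ∀ P : Place ℂ K, Divisorial N P → ∀ v : Fin (N + 1) → ℕ, (∃ α : ℤ, Dat P F dF x α v) →
    ∀ D : Fin N → Derivation ℂ K K, (∀ c, DerReg P (D c)) →
    (v = 0 → ω D = 0 ∨ 0 ≤ (P.ord (ω D) : ℝ) + ∑ i, r i * P.ord (f i)) ∧
    ∀ s c, 1 ≤ c → v = c • W s →
      ω D = 0 ∨ 0 ≤ (P.ord (ω D) : ℝ) + β s + ∑ i, r i * P.ord (f i)

theorem teff_tr {N : ℕ} {x y : Fin (N + 1) → K}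
    {F G : Fin (N + 1) → MvPolynomial (Fin (N + 1)) ℂ} {dF dG : Fin (N + 1) → ℕ}
    (h : ∀ (P : Place ℂ K) (v : Fin (N + 1) → ℕ),
      (∃ α, Dat P F dF x α v) ↔ ∃ α, Dat P G dG y α v) {ι : Type} {W : ι → Fin (N + 1) → ℕ}
    {β : ι → ℝ} (hE : TEff N y G dG W β) : TEff N x F dF W β := by
  obtain ⟨ω, hω, hp, L, r, f, hf, h1⟩ := hE
  exact ⟨ω, hω, hp, L, r, f, hf, fun P hP v hv => h1 P hP v ((h P v).1 hv)⟩

/-- effective divisors are pseudo-effective -/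
theorem tpsef_of_eff {N : ℕ} {x : Fin (N + 1) → K}
    {F : Fin (N + 1) → MvPolynomial (Fin (N + 1)) ℂ} {dF : Fin (N + 1) → ℕ} {ι : Type}
    {W : ι → Fin (N + 1) → ℕ} {β : ι → ℝ} (hE : TEff N x F dF W β) : TPsef N x F dF W β := by
  classical
  obtain ⟨ω, hω, hp, L, r, f, hf, h1⟩ := hE
  obtain ⟨D0, hD0⟩ : ∃ D, ω D ≠ 0 := by
    by_contra hcon
    push Not at hcon
    exact hω (funext hcon)
  let S : Finset K := Finset.univ.image fun ε : Fin L → Fin 3 => ∏ i, f i ^ (((ε i : ℕ) : ℤ) - 1)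
  refine ⟨S, fun M => ⟨1, le_rfl, fun D => ω D ^ M * ∏ i, f i ^ ⌊(M : ℝ) * r i⌋, ?_, ?_, ?_⟩⟩
  · intro h0
    have h2 := congrFun h0 D0
    exact (mul_ne_zero (pow_ne_zero M hD0)
      (Finset.prod_ne_zero_iff.2 fun i _ => zpow_ne_zero _ (hf i))) h2
  · intro A D
    dsimp only
    rw [hp A D, pow_one, mul_pow, one_mul, mul_assoc]
  · intro P hP v hv D hD
    -- the key estimate
    have key : ∀ b : ℝ, (ω D = 0 ∨ 0 ≤ (P.ord (ω D) : ℝ) + b + ∑ i, r i * P.ord (f i)) →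
        ω D ^ M * ∏ i, f i ^ ⌊(M : ℝ) * r i⌋ = 0 ∨ ∃ s ∈ S, s ≠ 0 ∧
          (P.ord s : ℝ) - M * b ≤ P.ord (ω D ^ M * ∏ i, f i ^ ⌊(M : ℝ) * r i⌋) := by
      intro b hb
      by_cases h0 : ω D ^ M * ∏ i, f i ^ ⌊(M : ℝ) * r i⌋ = 0
      · exact Or.inl h0
      right
      have hM0 : ω D ^ M ≠ 0 := left_ne_zero_of_mul h0
      have hpr : ∏ i, f i ^ ⌊(M : ℝ) * r i⌋ ≠ 0 := right_ne_zero_of_mul h0
      obtain ⟨ε, hε⟩ : ∃ ε : Fin L → Fin 3, ε = fun i => if 0 ≤ P.ord (f i) then 0 else 2 :=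
        ⟨_, rfl⟩
      have hord : ∀ i, (((ε i : ℕ) : ℤ) - 1) * P.ord (f i) = - |P.ord (f i)| := by
        intro i
        rw [hε]
        dsimp only
        split_ifs with h2
        · rw [abs_of_nonneg h2]
          simp
        · rw [abs_of_neg (not_le.1 h2)]
          simp
      refine ⟨∏ i, f i ^ (((ε i : ℕ) : ℤ) - 1), Finset.mem_image_of_mem _ (Finset.mem_univ ε),
        Finset.prod_ne_zero_iff.2 fun i _ => zpow_ne_zero _ (hf i), ?_⟩
      rw [ord_prod' P Finset.univ _ fun i _ => zpow_ne_zero _ (hf i), P.ord_mul hM0 hpr,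
        P.ord_pow, ord_prod' P Finset.univ _ fun i _ => zpow_ne_zero _ (hf i)]
      simp only [P.ord_zpow, hord]
      push_cast
      have h2 : ∀ i, - |(P.ord (f i) : ℝ)| ≤
          (⌊(M : ℝ) * r i⌋ : ℝ) * P.ord (f i) - M * (r i * P.ord (f i)) := by
        intro i
        have h3 := Int.floor_le ((M : ℝ) * r i)
        have h4 := Int.lt_floor_add_one ((M : ℝ) * r i)
        have h5 : |((⌊(M : ℝ) * r i⌋ : ℝ) - M * r i) * P.ord (f i)| ≤ 1 * |(P.ord (f i) : ℝ)| := by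
          rw [abs_mul]
          apply mul_le_mul_of_nonneg_right _ (abs_nonneg _)
          rw [abs_le]
          constructor <;> linarith
        have h6 := neg_abs_le (((⌊(M : ℝ) * r i⌋ : ℝ) - M * r i) * P.ord (f i))
        linarith
      have h3 : ∑ i, - |(P.ord (f i) : ℝ)| ≤
          ∑ i, ((⌊(M : ℝ) * r i⌋ : ℝ) * P.ord (f i) - M * (r i * P.ord (f i))) :=
        Finset.sum_le_sum fun i _ => h2 i
      rw [Finset.sum_sub_distrib, ← Finset.mul_sum] at h3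
      by_cases hM : M = 0
      · subst hM
        simp only [Nat.cast_zero, zero_mul, sub_zero, zero_add] at h3 ⊢
        linarith
      · have h4 : ω D ≠ 0 := fun h => hM0 (by rw [h, zero_pow hM])
        have h5 := mul_le_mul_of_nonneg_left (hb.resolve_left h4) (show (0 : ℝ) ≤ M by positivity)
        rw [mul_zero] at h5
        linarith
    have h2 := h1 P hP v hv D hD
    refine ⟨fun h0 => ?_, fun s c hc h0 => ?_⟩
    · have h3 := key 0 ((h2.1 h0).imp id fun h => by linarith)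
      refine h3.imp id ?_
      rintro ⟨s, hs, hs0, hle⟩
      refine ⟨s, hs, hs0, ?_⟩
      rw [mul_zero, sub_zero] at hle
      dsimp only
      push_cast
      rw [one_mul]
      exact_mod_cast hle
    · have h3 := key (β s) (h2.2 s c hc h0)
      refine h3.imp id ?_
      rintro ⟨s', hs, hs0, hle⟩
      refine ⟨s', hs, hs0, ?_⟩
      dsimp only
      push_cast
      rw [one_mul, one_mul]
      exact hle

/-- the points of the polyhedron -/
theorem teff_of_pi {d : ℕ} {Φ : Arr (d + 1)} {R : ℕ} (C : Cv Φ K R) {ι : Type}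
    {W : ι → Fin (d + 2) → ℕ} {β : ι → ℝ} (hβ : ∀ s, β s ≤ 1)
    (hne : (PiR Φ.dF W β).Nonempty) : TEff (d + 1) C.x Φ.F Φ.dF W β := by
  classical
  obtain ⟨y, hy1, hy2⟩ := hne
  obtain ⟨D0, hD0⟩ := exists_dual C.u_bas
  have hbw0 : bw D0 C.x = 1 := by
    rw [Pool.Agent.W930.CG.bw_one D0 C.x C.hx0]
    change (Matrix.of fun i j => D0 i (C.u j)).det = 1
    rw [hD0, Matrix.det_one]
  have hpr : ∏ k, aeval C.x (Φ.F k) ≠ 0 := Finset.prod_ne_zero_iff.2 fun k _ => C.F_ne k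
  refine ⟨fun D => bw D C.x * (∏ k, aeval C.x (Φ.F k))⁻¹, ?_, ?_, d + 2, y,
    fun k => aeval C.x (Φ.F k), C.F_ne, ?_⟩
  · intro h0
    have h1 : bw D0 C.x * (∏ k, aeval C.x (Φ.F k))⁻¹ = 0 := congrFun h0 D0
    rw [hbw0, one_mul] at h1
    exact (inv_ne_zero hpr) h1
  · intro A D
    dsimp only
    rw [(bwa (d + 1) K).2.1 A D C.x, pow_one, mul_assoc]
  · rintro P _ v ⟨α, hdat⟩ D hD
    have h1 := bw_reg_ord Φ.hS Φ.hh hdat hD
    have h2 : ∑ k, y k * (P.ord (aeval C.x (Φ.F k)) : ℝ) =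
        (∑ k, (Φ.dF k : ℝ) - ((d + 2 : ℕ) : ℝ)) * α + ∑ k, (v k : ℝ) * y k := by
      rw [← hy1, Finset.sum_mul, ← Finset.sum_add_distrib]
      refine Finset.sum_congr rfl fun k _ => ?_
      rw [hdat.hv]
      push_cast
      ring
    have key : bw D C.x * (∏ k, aeval C.x (Φ.F k))⁻¹ = 0 ∨
        ∑ k, (v k : ℝ) * y k - (if v = 0 then 0 else 1) ≤
        (P.ord (bw D C.x * (∏ k, aeval C.x (Φ.F k))⁻¹) : ℝ) +
          ∑ k, y k * (P.ord (aeval C.x (Φ.F k)) : ℝ) := by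
      by_cases h0 : bw D C.x = 0
      · left
        rw [h0, zero_mul]
      right
      have h3 := h1.resolve_left h0
      rw [h2, P.ord_mul h0 (inv_ne_zero hpr), P.ord_inv, ord_prod' P Finset.univ _ fun k _ => C.F_ne k]
      simp only [hdat.hv]
      rw [Finset.sum_add_distrib, ← Finset.sum_mul]
      have h4 : ((((d + 1 : ℕ) : ℤ) + 1) * α + ∑ k, (v k : ℤ) - (if v = 0 then 0 else 1) : ℤ) ≤
          P.ord (bw D C.x) := h3
      have h5 : (((((d + 1 : ℕ) : ℤ) + 1) * α + ∑ k, (v k : ℤ) - (if v = 0 then 0 else 1) : ℤ) : ℝ)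
          ≤ (P.ord (bw D C.x) : ℝ) := by exact_mod_cast h4
      push_cast at h5 ⊢
      linarith
    refine ⟨fun h0 => ?_, fun s c hc h0 => ?_⟩
    · refine key.imp id fun h3 => ?_
      rw [if_pos h0, h0] at h3
      simp only [Pi.zero_apply, Nat.cast_zero, zero_mul, Finset.sum_const_zero, sub_zero] at h3
      exact h3
    · refine key.imp id fun h3 => ?_
      have h4 : ∑ k, (v k : ℝ) * y k = c * ∑ k, (W s k : ℝ) * y k := by
        rw [h0, Finset.mul_sum]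
        refine Finset.sum_congr rfl fun k _ => ?_
        rw [Pi.smul_apply, smul_eq_mul]
        push_cast
        ring
      have hcq : (1 : ℝ) ≤ c := by exact_mod_cast hc
      have h5 : (c : ℝ) * (1 - β s) ≤ c * ∑ k, (W s k : ℝ) * y k :=
        mul_le_mul_of_nonneg_left (hy2 s) (by positivity)
      have h6 : (1 - β s) ≤ (c : ℝ) * (1 - β s) := by
        have h7 : 0 ≤ 1 - β s := by linarith [hβ s]
        nlinarith
      have h7 : (if v = 0 then (0 : ℝ) else 1) ≤ 1 := by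
        split_ifs <;> norm_num
      rw [h4] at h3
      linarith

theorem tsec_mono {N : ℕ} {x : Fin (N + 1) → K}
    {F : Fin (N + 1) → MvPolynomial (Fin (N + 1)) ℂ} {dF : Fin (N + 1) → ℕ} {ι : Type}
    {W : ι → Fin (N + 1) → ℕ} {β β' : ι → ℝ} (hb : ∀ s, β s ≤ β' s) {S : Finset K} {m j : ℕ}
    {ω : (Fin N → Derivation ℂ K K) → K} (h : TSec N x F dF W β S m j ω) :
    TSec N x F dF W β' S m j ω := by
  refine ⟨h.1, fun P hP v hv D hD => ⟨(h.2 P hP v hv D hD).1, fun s c hc h0 => ?_⟩⟩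
  refine ((h.2 P hP v hv D hD).2 s c hc h0).imp id ?_
  rintro ⟨s', hs, hs0, hle⟩
  refine ⟨s', hs, hs0, ?_⟩
  have h1 := mul_le_mul_of_nonneg_left (hb s) (show (0 : ℝ) ≤ m by positivity)
  linarith

/-- compactness -/
theorem pir_of_rat {N : ℕ} {dF : Fin N → ℕ} (hd : ∀ k, 0 < dF k) {ι : Type}
    {W : ι → Fin N → ℕ} (hax : ∀ k, ∃ s e, 0 < e ∧ W s = Pi.single k e) {β : ι → ℝ}
    (hβ : ∀ s, β s ≤ 1)
    (h : ∀ β' : ι → ℚ, (∀ s, β s ≤ β' s) → (∀ s, β' s ≤ 1) → (PiT dF W β').Nonempty) :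
    (PiR dF W β).Nonempty := by
  classical
  let κ : ℝ := ∑ k, (dF k : ℝ) - N
  let t : ℕ → Set (Fin N → ℝ) := fun n => {y | ∑ k, (dF k : ℝ) * y k = κ ∧ (∀ k, 0 ≤ y k) ∧
    ∀ s, 1 - β s - 1 / ((n : ℝ) + 1) ≤ ∑ k, (W s k : ℝ) * y k}
  have htd : ∀ i, t (i + 1) ⊆ t i := by
    rintro i y ⟨h1, h2, h3⟩
    refine ⟨h1, h2, fun s => le_trans ?_ (h3 s)⟩
    have h4 : 1 / (((i + 1 : ℕ) : ℝ) + 1) ≤ 1 / ((i : ℝ) + 1) := by
      apply one_div_le_one_div_of_le (by positivity)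
      push_cast
      linarith
    linarith
  have htn : ∀ i, (t i).Nonempty := by
    intro i
    have h1 : ∀ s, ∃ q : ℚ, β s ≤ q ∧ (q : ℝ) ≤ 1 ∧ (q : ℝ) ≤ β s + 1 / ((i : ℝ) + 1) := by
      intro s
      have hpos : (0 : ℝ) < 1 / ((i : ℝ) + 1) := by positivity
      rcases (hβ s).lt_or_eq with h2 | h2
      · obtain ⟨q, hq1, hq2⟩ := exists_rat_btwn (show β s < min 1 (β s + 1 / ((i : ℝ) + 1)) from
          lt_min h2 (by linarith))
        exact ⟨q, hq1.le, hq2.le.trans (min_le_left _ _), hq2.le.trans (min_le_right _ _)⟩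
      · refine ⟨1, ?_, ?_, ?_⟩
        · rw [h2]
          simp
        · simp
        · rw [h2]
          push_cast
          linarith
    choose q hq1 hq2 hq3 using h1
    obtain ⟨y, hy1, hy2⟩ := h q hq1 fun s => by exact_mod_cast hq2 s
    have hy0 : ∀ k, 0 ≤ y k := by
      intro k
      have h3 := nonneg_of_ax hax (y := y) (c := 0) le_rfl (fun s => by
        rw [dotL_apply, neg_zero]
        have h4 := hy2 s
        have h5 : q s ≤ 1 := by exact_mod_cast hq2 s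
        exact le_trans (by linarith) h4) k
      simpa using h3
    refine ⟨fun k => (y k : ℝ), ?_, fun k => by
      have h3 : (0 : ℝ) ≤ (y k : ℝ) := by exact_mod_cast hy0 k
      exact h3, fun s => ?_⟩
    · have h3 : ((∑ k, (dF k : ℚ) * y k : ℚ) : ℝ) = ((∑ k, (dF k : ℚ) - N : ℚ) : ℝ) := by
        rw [hy1]
      push_cast at h3
      exact h3
    · have h3 : ((1 - q s : ℚ) : ℝ) ≤ ((∑ k, (W s k : ℚ) * y k : ℚ) : ℝ) := by
        exact_mod_cast hy2 s
      push_cast at h3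
      have h4 := hq3 s
      linarith
  have hcont : ∀ c : Fin N → ℝ, Continuous fun y : Fin N → ℝ => ∑ k, c k * y k := fun c =>
    continuous_finsetSum _ fun k _ => continuous_const.mul (continuous_apply k)
  have htcl : ∀ i, IsClosed (t i) := by
    intro i
    have h1 : t i = {y | ∑ k, (dF k : ℝ) * y k = κ} ∩ ((⋂ k, {y | 0 ≤ y k}) ∩
        ⋂ s, {y | 1 - β s - 1 / ((i : ℝ) + 1) ≤ ∑ k, (W s k : ℝ) * y k}) := by
      ext y
      simp only [t, Set.mem_setOf_eq, Set.mem_inter_iff, Set.mem_iInter]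
    rw [h1]
    refine (isClosed_eq (hcont _) continuous_const).inter (IsClosed.inter ?_ ?_)
    · exact isClosed_iInter fun k => isClosed_le continuous_const (continuous_apply k)
    · exact isClosed_iInter fun s => isClosed_le continuous_const (hcont _)
  have ht0 : IsCompact (t 0) := by
    have h1 : t 0 ⊆ Set.Icc (0 : Fin N → ℝ) (fun _ => |κ|) := by
      rintro y ⟨h2, h3, -⟩
      refine ⟨fun k => h3 k, fun k => ?_⟩
      have h4 : (dF k : ℝ) * y k ≤ ∑ k, (dF k : ℝ) * y k :=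
        Finset.single_le_sum (f := fun k => (dF k : ℝ) * y k)
          (fun k _ => mul_nonneg (by positivity) (h3 k)) (Finset.mem_univ k)
      have h5 : (1 : ℝ) ≤ dF k := by exact_mod_cast hd k
      have h6 := h3 k
      have h7 : y k ≤ (dF k : ℝ) * y k := by nlinarith
      rw [h2] at h4
      exact (h7.trans h4).trans (le_abs_self κ)
    exact IsCompact.of_isClosed_subset isCompact_Icc (htcl 0) h1
  obtain ⟨y, hy⟩ := IsCompact.nonempty_iInter_of_sequence_nonempty_isCompact_isClosed t htd htn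
    ht0 htcl
  rw [Set.mem_iInter] at hy
  refine ⟨y, (hy 0).1, fun s => ?_⟩
  by_contra hcon
  push Not at hcon
  obtain ⟨n, hn⟩ := exists_nat_one_div_lt (sub_pos.2 hcon)
  have h1 := (hy n).2.2 s
  linarith

/-- **The theorem for real coefficients.** -/
theorem main_real {d R : ℕ} {x : Fin (d + 2) → K} (hx0 : x 0 ≠ 0)
    (hbas : IsTranscendenceBasis ℂ fun b : Fin (d + 1) => x b.succ / x 0)
    {F : Fin (d + 2) → MvPolynomial (Fin (d + 2)) ℂ} {dF : Fin (d + 2) → ℕ} (hd : ∀ k, 0 < dF k)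
    (hh : ∀ k, (F k).IsHomogeneous (dF k)) (hS : Snc F) {z : Fin R → K} {M : Fin R → ℕ}
    (hM : ∀ j, 0 < M j) {a : Fin R → Fin (d + 2) → ℕ}
    (hz : ∀ j, z j ^ M j = ∏ k, (aeval x (F k) / x 0 ^ dF k) ^ a j k)
    (hdiv : ∀ j, M j ∣ ∑ k, a j k * dF k)
    (hgen : IntermediateField.adjoin ℂ
      (Set.range (fun b : Fin (d + 1) => x b.succ / x 0) ∪ Set.range z) = ⊤)
    {ι : Type} [Fintype ι] {W : ι → Fin (d + 2) → ℕ} {β : ι → ℝ} (hW : ∀ s, Prm M a (W s))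
    (hax : ∀ k, ∃ s e, 0 < e ∧ W s = Pi.single k e) (hβ0 : ∀ s, 0 ≤ β s) (hβ : ∀ s, β s ≤ 1) :
    (TPsef (d + 1) x F dF W β ↔ TEff (d + 1) x F dF W β) ∧
    (TPsef (d + 1) x F dF W β ↔ (PiR dF W β).Nonempty) := by
  classical
  have h1 : TPsef (d + 1) x F dF W β → (PiR dF W β).Nonempty := by
    rintro ⟨S, hpsef⟩
    refine pir_of_rat hd hax hβ fun β' hb1 hb2 => ?_
    have hβ0' : ∀ s, 0 ≤ β' s := fun s => by
      have h2 := (hβ0 s).trans (hb1 s)
      exact_mod_cast h2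
    refine (main hx0 hbas hd hh hS hM hz hdiv hgen hW hax hβ0' hb2).1.1 ⟨S, fun M0 => ?_⟩
    obtain ⟨j, hj, ω, hω0, hω⟩ := hpsef M0
    exact ⟨j, hj, ω, hω0, tsec_mono hb1 hω⟩
  have h2 : (PiR dF W β).Nonempty → TEff (d + 1) x F dF W β := by
    obtain ⟨Φ, rfl, C, rfl, rfl, htr⟩ := exists_cv2 hx0 hbas hd hh hS hM hz hdiv hgen
    exact fun hne => teff_tr htr (teff_of_pi C hβ hne)
  exact ⟨⟨fun h => h2 (h1 h), tpsef_of_eff⟩, ⟨h1, fun h => tpsef_of_eff (h2 h)⟩⟩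

end Pool.Agent.Y169.TP
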