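import Pool.Agent.Y169.TP.Cmp

/-!
The bound for the number of sections of a toroidal pair.
-/

set_option autoImplicit false
set_option linter.overlappingInstances false
set_option linter.unusedSectionVars false
set_option maxHeartbeats 1000000

open FF MvPolynomial IntermediateField Pool.Agent.W603.LV Pool.Agent.W619.PQ
open Pool.Agent.W619.TW Pool.Agent.W602.GT Pool.Agent.TH122.AB Pool.Agent.TH756.PN
open Pool.Agent.W602.Cov.G Pool.Agent.Y169.TH Pool.Agent.Y169.TH.Cv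
open Pool.Agent.Y169.CH hiding Adm

namespace Pool.Agent.Y169.TP

variable {d : ℕ} {Φ : Arr (d + 1)} {K : Type} [Field K] [Algebra ℂ K] {R : ℕ} (C : Cv Φ K R)

/-- sections of `m (K + Δ) + A` on the toroidal variety with the rays `W s` and the coefficients
`β s` -/
def TSc {ι : Type} (W : ι → Fin (d + 2) → ℕ) (β : ι → ℝ) (S : Finset K) (m : ℕ)
    (ω : (Fin (d + 1) → Derivation ℂ K K) → K) : Prop :=
  IsPluriForm ℂ K (d + 1) m ω ∧ ∀ (P : Place ℂ K) (α : ℤ) (v : Fin (d + 2) → ℕ),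
    Dat P Φ.F Φ.dF C.x α v → (v = 0 → LS (d + 1) P 0 S m ω) ∧
      ∀ s c, 1 ≤ c → v = c • W s → LS (d + 1) P (β s) S m ω

section

variable {K0 : Type} [Field K0] [Algebra ℂ K0] [Algebra K0 K] [IsScalarTower ℂ K0 K]
  [FiniteDimensional K0 K]

theorem adic_dat {X : Fin (d + 1) → K0} (hXu : ∀ j, algebraMap K0 K (X j) = C.u j)
    {p : MvPolynomial (Fin (d + 1)) ℂ} {v : Place ℂ K0}
    (hv : ∀ P, P ≠ 0 → 0 ≤ v.ord (aeval X P) ∧ (v.ord (aeval X P) = 0 ↔ ¬ p ∣ P))
    {P : Place ℂ K} {e : ℕ} (h : Over P v e) {α : ℤ} {vv : Fin (d + 2) → ℕ}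
    (hdat : Dat P Φ.F Φ.dF C.x α vv) (k : Fin (d + 2)) : vv k = 0 ↔ ¬ p ∣ deh (Φ.F k) := by
  have h1 : ∀ l, 0 ≤ P.ord (C.x l) := by
    intro l
    refine Fin.cases ?_ (fun b => ?_) l
    · rw [C.hx0, P.ord_one]
    · have h2 := (hv (MvPolynomial.X b) (X_ne_zero _)).1
      rw [aeval_X] at h2
      change 0 ≤ P.ord (C.u b)
      rw [← hXu, h.2]
      exact mul_nonneg (by positivity) h2
  have hα : α = 0 := by
    obtain ⟨j, hj⟩ := hdat.ha2
    have h2 := h1 j
    have h3 := hdat.ha1 0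
    rw [C.hx0, P.ord_one] at h3
    omega
  have h2 := hdat.hv k
  rw [hα, mul_zero, zero_add, ← C.ae_deh, C.ae_K0 hXu, h.2] at h2
  rw [← (hv _ (Cv.deh_F_ne k)).2]
  have he : (0 : ℤ) < e := by exact_mod_cast h.1
  constructor
  · intro h3
    rw [h3, Nat.cast_zero] at h2
    exact (mul_eq_zero.1 h2).resolve_left he.ne'
  · intro h3
    rw [h3, mul_zero] at h2
    exact_mod_cast h2.symm

theorem inf_dat {X : Fin (d + 1) → K0} (hXu : ∀ j, algebraMap K0 K (X j) = C.u j)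
    {v0 : Place ℂ K0} (hv0 : ∀ P : MvPolynomial (Fin (d + 1)) ℂ, P ≠ 0 →
      v0.ord (aeval X P) = - (degB Finset.univ P : ℤ))
    {P : Place ℂ K} (h : Over P v0 1) {α : ℤ} {vv : Fin (d + 2) → ℕ}
    (hdat : Dat P Φ.F Φ.dF C.x α vv) : vv = 0 := by
  classical
  have hX1 : ∀ b : Fin (d + 1), P.ord (C.x b.succ) = -1 := by
    intro b
    change P.ord (C.u b) = -1
    rw [← hXu, h.2]
    have h2 := hv0 (MvPolynomial.X b) (X_ne_zero _)
    rw [aeval_X] at h2
    rw [h2]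
    have h3 : degB Finset.univ (MvPolynomial.X b : MvPolynomial (Fin (d + 1)) ℂ) = 1 := by
      unfold degB
      rw [support_X, Finset.sup_singleton]
      rw [Finset.sum_eq_single b]
      · simp
      · intro c _ hc
        rw [Finsupp.single_apply, if_neg (Ne.symm hc)]
      · intro h
        exact absurd (Finset.mem_univ _) h
    rw [h3]
    norm_num
  have hα : α = -1 := by
    obtain ⟨j, hj⟩ := hdat.ha2
    have h3 := hdat.ha1 (Fin.succ 0)
    rw [hX1] at h3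
    have h4 : -1 ≤ P.ord (C.x j) := by
      refine Fin.cases ?_ (fun b => ?_) j
      · rw [C.hx0, P.ord_one]
        norm_num
      · exact (hX1 b).ge
    omega
  funext k
  have h2 := hdat.hv k
  rw [hα, ← C.ae_deh, C.ae_K0 hXu, h.2, hv0 _ (Cv.deh_F_ne k), degB_deh (Φ.hh k) (Φ.hI k)] at h2
  rw [Pi.zero_apply]
  push_cast at h2
  have h3 : (vv k : ℤ) = 0 := by linarith
  exact_mod_cast h3

end

theorem test_dat (T : C.Dir) {P : Place ℂ K} {α : ℤ} {vv : Fin (d + 2) → ℕ}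
    (hdat : Dat P Φ.F Φ.dF C.x α vv) {e2 : ℕ} (he2 : 0 < e2)
    (hrel : ∀ k, Φ.ee k * vv k = e2 * T.V k) (hdvd : e2 ∣ T.N) (hprm : Prm C.M C.a T.v) :
    vv = T.v ∧ T.N = e2 := by
  obtain ⟨c, hc⟩ := hdvd
  have h1 : T.v = c • vv := by
    funext k
    have h2 := T.hv k
    rw [hc] at h2
    rw [Pi.smul_apply, smul_eq_mul]
    apply Nat.eq_of_mul_eq_mul_left (Φ.ee_pos k)
    rw [h2]
    calc e2 * c * T.V k = c * (e2 * T.V k) := by ring
      _ = c * (Φ.ee k * vv k) := by rw [hrel]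
      _ = _ := by ring
  have h2 : vv ≠ 0 := by
    intro h0
    apply hprm.1.1
    rw [h1, h0, smul_zero]
  have h3 := hprm.2 c vv (C.adm hdat h2) h1
  rw [h3, one_smul] at h1
  rw [h3, mul_one] at hc
  exact ⟨h1.symm, hc⟩

theorem LS_of {ι : Type} {W : ι → Fin (d + 2) → ℕ} {β : ι → ℝ} (hW : ∀ s, Prm C.M C.a (W s))
    (hax : ∀ k, ∃ s e, 0 < e ∧ W s = Pi.single k e) (hβ : ∀ s, β s ≤ 1) {S : Finset K} {m : ℕ}
    {ω : (Fin (d + 1) → Derivation ℂ K K) → K} (hω : TSc C W β S m ω) {P : Place ℂ K} {α : ℤ}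
    {vv : Fin (d + 2) → ℕ} (hdat : Dat P Φ.F Φ.dF C.x α vv) {t : Fin (d + 2)} (ht : vv t ≠ 0)
    (h0 : ∀ k, k ≠ t → vv k = 0) : ∃ b : ℝ, b ≤ 1 ∧ LS (d + 1) P b S m ω := by
  classical
  obtain ⟨s, e0, he0, hs⟩ := hax t
  have h1 : vv = Pi.single t (vv t) := by
    funext k
    by_cases hk : k = t
    · subst hk
      rw [Pi.single_eq_same]
    · rw [Pi.single_eq_of_ne hk, h0 k hk]
  have hne : vv ≠ 0 := fun h => ht (congrFun h t)
  have h2 := C.adm hdat hne
  rw [h1] at h2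
  have h3 := hW s
  rw [hs] at h3
  obtain ⟨c, hc⟩ := axis_mul (by omega) he0 h3 h2
  refine ⟨β s, hβ s, (hω.2 P α vv hdat).2 s c ?_ ?_⟩
  · rcases Nat.eq_zero_or_pos c with h | h
    · rw [h, mul_zero] at hc
      exact absurd hc ht
    · exact h
  · rw [hs, h1]
    funext k
    rw [Pi.smul_apply, smul_eq_mul]
    by_cases hk : k = t
    · subst hk
      rw [Pi.single_eq_same, Pi.single_eq_same, hc, mul_comm]
    · rw [Pi.single_eq_of_ne hk, Pi.single_eq_of_ne hk, mul_zero]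

theorem adic_LS {K0 : Type} [Field K0] [Algebra ℂ K0] [Algebra K0 K] [IsScalarTower ℂ K0 K]
    [FiniteDimensional K0 K] {ι : Type} {W : ι → Fin (d + 2) → ℕ} {β : ι → ℝ}
    (hW : ∀ s, Prm C.M C.a (W s)) (hax : ∀ k, ∃ s e, 0 < e ∧ W s = Pi.single k e)
    (hβ : ∀ s, β s ≤ 1) {S : Finset K} {m : ℕ}
    {ω : (Fin (d + 1) → Derivation ℂ K K) → K} (hω : TSc C W β S m ω)
    {X : Fin (d + 1) → K0} (hXu : ∀ j, algebraMap K0 K (X j) = C.u j)
    {p : MvPolynomial (Fin (d + 1)) ℂ} (hp : Irreducible p) {v : Place ℂ K0}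
    (hv : ∀ P, P ≠ 0 → 0 ≤ v.ord (aeval X P) ∧ (v.ord (aeval X P) = 0 ↔ ¬ p ∣ P))
    {P : Place ℂ K} {e : ℕ} (h : Over P v e) (hun : (∀ t, ¬ p ∣ deh (Φ.F t)) → e = 1) :
    ∃ b : ℝ, ((e = 1 ∧ b ≤ 0) ∨ (b ≤ 1 ∧ ∃ t, p ∣ deh (Φ.F t))) ∧ LS (d + 1) P b S m ω := by
  obtain ⟨α, vv, hα, hdat⟩ := C.exists_dat P
  have hvv := adic_dat C hXu hv h hdat
  by_cases hex : ∃ t, p ∣ deh (Φ.F t)
  · obtain ⟨t, ht⟩ := hex
    have h1 : vv t ≠ 0 := fun h0 => (hvv t).1 h0 ht
    have h2 : ∀ k, k ≠ t → vv k = 0 := fun k hk =>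
      (hvv k).2 fun hk' => not_both Φ.hS Φ.hh hp hk hk' ht
    obtain ⟨b, hb, hLS⟩ := LS_of C hW hax hβ hω hdat h1 h2
    exact ⟨b, Or.inr ⟨hb, t, ht⟩, hLS⟩
  · push Not at hex
    have h1 : vv = 0 := by
      funext k
      rw [Pi.zero_apply, hvv k]
      exact hex k
    exact ⟨0, Or.inl ⟨hun hex, le_rfl⟩, (hω.2 P α vv hdat).1 h1⟩

/-- **The bound for the number of sections.** -/
theorem sec_bound2 {ι : Type} [Fintype ι] {W : ι → Fin (d + 2) → ℕ} {β : ι → ℝ}
    (hW : ∀ s, Prm C.M C.a (W s)) (hax : ∀ k, ∃ s e, 0 < e ∧ W s = Pi.single k e)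
    (hβ : ∀ s, β s ≤ 1) (S : Finset K) :
    ∃ C0 c : ℕ, ∀ (m j q N : ℕ) (ω : Fin N → (Fin (d + 1) → Derivation ℂ K K) → K),
      LinearIndependent ℂ ω → (∀ l, TSc C W β (pw S j) m (ω l)) →
      (∑ k, (Φ.dF k : ℤ) - (d + 2)) * m + c * (j + 1) ≤ Φ.E * q →
      ∀ A : Finset (Fin (d + 1) →₀ ℕ),
        (∀ a : Fin (d + 1) →₀ ℕ, (∀ s, (1 - β s) * m - c * (j + 1) ≤
          (((Φ.ee 0 * W s 0 : ℤ) * (q - ∑ b, (a b : ℤ)) +
            ∑ b, (Φ.ee b.succ * W s b.succ : ℤ) * a b : ℤ) : ℝ)) → a ∈ A) →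
        N ≤ C0 * A.card := by
  classical
  choose T hTW using fun s => C.exists_dir (hW s).1
  obtain ⟨K', iF, iA, iK, hT, G0, G, fG0, fG, hGG, a1, a2, a3, a4, b1, b2, b3, b4, Y, X, hY, hX,
    hYK, hXZ, hbX⟩ := exists_closure2 C.u_bas C.bas_Y C.adj_le C.fin_Y
  obtain ⟨D, hD0⟩ := exists_dual C.u_bas
  have hD : ∀ i j, D i (C.u j) = if i = j then 1 else 0 := by
    intro i j
    have h1 := congrFun (congrFun hD0 i) j
    rw [Matrix.of_apply, Matrix.one_apply] at h1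
    exact h1
  obtain ⟨DY, hDY0⟩ := exists_dual C.bas_Y
  have hDY : ∀ i j, DY i (C.Y j) = if i = j then 1 else 0 := by
    intro i j
    have h1 := congrFun (congrFun hDY0 i) j
    rw [Matrix.of_apply, Matrix.one_apply] at h1
    exact h1
  -- the coordinates in `K'`
  have hXK' : ∀ j, (X j : K') = algebraMap K K' (C.u j) := by
    intro j
    rw [← hXZ, ← IsScalarTower.algebraMap_apply (fixedField G) K K']
    rfl
  have hYK' : ∀ j, (Y j : K') = algebraMap K K' (C.Y j) := by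
    intro j
    rw [← hYK, ← IsScalarTower.algebraMap_apply (fixedField G0) K K']
    rfl
  have hXfun : (fun j => (X j : K')) = fun j => algebraMap K K' (C.u j) := funext hXK'
  have hYfun : (fun j => (Y j : K')) = fun j => algebraMap K K' (C.Y j) := funext hYK'
  obtain ⟨γ, hγd⟩ : ∃ γ, γ = aeval C.x (Φ.G 0) := ⟨_, rfl⟩
  have hγ0 : γ ≠ 0 := by
    rw [hγd]
    exact C.G_ne 0
  have hγG : ∀ g ∈ G, g (algebraMap K K' γ) = algebraMap K K' γ := by
    intro g hg
    have h1 : algebraMap K K' γ = ((aeval X (deh (Φ.G 0)) : fixedField G) : K') := by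
      rw [← aeval_fix, hXfun, hγd, ← C.ae_deh]
      exact (MvPolynomial.aeval_algebraMap_apply K' C.u (deh (Φ.G 0))).symm
    rw [h1]
    exact (aeval X (deh (Φ.G 0)) : fixedField G).2 ⟨g, hg⟩
  have hint : ∀ (q : ℕ) (P : MvPolynomial (Fin (d + 1)) ℂ),
      (∀ m ∈ P.support, ∑ b, m b ≤ Φ.E * q) →
      IsIntegral (Algebra.adjoin ℂ (Set.range fun j => (Y j : K')))
        (aeval (fun j => (X j : K')) P / (algebraMap K K' γ) ^ q) := by
    intro q P hP
    obtain ⟨p, hp, hp0⟩ := C.int_u hP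
    have hle : ∀ x ∈ Algebra.adjoin ℂ (Set.range C.Y), algebraMap K K' x ∈
        Algebra.adjoin ℂ (Set.range fun j => (Y j : K')) := by
      intro x hx
      rw [Algebra.adjoin_range_eq_range_aeval] at hx ⊢
      obtain ⟨Q, rfl⟩ := hx
      refine ⟨Q, ?_⟩
      rw [hYfun]
      exact MvPolynomial.aeval_algebraMap_apply K' C.Y Q
    let φ : Algebra.adjoin ℂ (Set.range C.Y) →+*
        Algebra.adjoin ℂ (Set.range fun j => (Y j : K')) :=
      ((algebraMap K K').comp (Algebra.adjoin ℂ (Set.range C.Y)).subtype).codRestrict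
        (Algebra.adjoin ℂ (Set.range fun j => (Y j : K'))) fun x => hle x.1 x.2
    have hel : aeval (fun j => (X j : K')) P / (algebraMap K K' γ) ^ q =
        algebraMap K K' (aeval C.u P / aeval C.x (Φ.G 0) ^ q) := by
      rw [map_div₀, map_pow, ← hγd, hXfun]
      congr 1
      exact MvPolynomial.aeval_algebraMap_apply K' C.u P
    rw [hel]
    refine ⟨p.map φ, hp.map _, ?_⟩
    rw [Polynomial.eval₂_map]
    have h1 := congrArg (algebraMap K K') hp0
    rw [map_zero, Polynomial.hom_eval₂] at h1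
    exact h1
  -- the place at infinity
  obtain ⟨v0, hv0, hinf⟩ := Pool.Agent.Y169.TP.inf_f C hX hXZ hD
  obtain ⟨w0, e0, I0, hw0, hI0c, hI0⟩ := exists_inertia G v0
  -- the test places
  have hpl : ∀ s : ι, ∃ v : Place ℂ (fixedField G0), ∀ P : MvPolynomial (Fin (d + 1)) ℂ, P ≠ 0 →
      v.ord (aeval Y P) = zord (T s).lam P := fun s => exists_zmono hY _ (T s).hlam
  choose vs hvs using hpl
  choose ws es Is hws hIsc hIs using fun s => exists_inertia G0 (vs s)
  obtain ⟨C0, c1, hC⟩ := two_bound2 G0 G hGG hX hbX hY (γ := algebraMap K K' γ)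
    (by simpa using hγ0) hγG Φ.E hint hv0 hw0 (fun s => (T s).lam) hvs hws
    (S.image (algebraMap K K'))
  -- the constants of `S`
  obtain ⟨c2, hc2, hc2'⟩ : ∃ c2 : ℕ, (∀ g ∈ G0, ∀ s ∈ S, -(c2 : ℤ) ≤
      w0.ord (g (algebraMap K K' s))) ∧
      ∀ t, ∀ g ∈ G0, ∀ s ∈ S, -(c2 : ℤ) ≤ (ws t).ord (g (algebraMap K K' s)) := by
    have hfin : ((Set.image2 (fun (g : K' ≃ₐ[ℂ] K') (s : K) => w0.ord
        (g (algebraMap K K' s))) (G0 : Set (K' ≃ₐ[ℂ] K')) (S : Set K)) ∪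
        (⋃ t, Set.image2 (fun (g : K' ≃ₐ[ℂ] K') (s : K) => (ws t).ord
        (g (algebraMap K K' s))) (G0 : Set (K' ≃ₐ[ℂ] K')) (S : Set K))).Finite :=
      (Set.Finite.image2 _ (Set.toFinite _) (Set.toFinite _)).union
        (Set.finite_iUnion fun t => Set.Finite.image2 _ (Set.toFinite _) (Set.toFinite _))
    obtain ⟨M0, hM0⟩ := hfin.bddBelow
    refine ⟨M0.natAbs, fun g hg s hs => ?_, fun t g hg s hs => ?_⟩
    · have h1 := hM0 (Or.inl (Set.mem_image2_of_mem hg hs))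
      have h2 : -(M0.natAbs : ℤ) ≤ M0 := by omega
      exact h2.trans h1
    · have h1 := hM0 (Or.inr (Set.mem_iUnion.2 ⟨t, Set.mem_image2_of_mem hg hs⟩))
      have h2 : -(M0.natAbs : ℤ) ≤ M0 := by omega
      exact h2.trans h1
  obtain ⟨NN, hNN⟩ : ∃ NN : ℕ, NN = ∑ s, (T s).N := ⟨_, rfl⟩
  have hNle : ∀ s, (T s).N ≤ NN := by
    intro s
    rw [hNN]
    exact Finset.single_le_sum (f := fun s => (T s).N) (fun _ _ => Nat.zero_le _)
      (Finset.mem_univ s)
  refine ⟨C0, (NN + 1) * (c1 + c2 + 1), fun m j q N ω hlin hsec hq A hA => ?_⟩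
  -- from `K` to `K'`
  have hS' : ∀ s' ∈ pw S j, algebraMap K K' s' ∈ pw (S.image (algebraMap K K')) j := by
    intro s' hs'
    obtain ⟨s, hs, rfl⟩ := mem_pw.1 hs'
    rw [map_pow]
    exact mem_pw.2 ⟨_, Finset.mem_image_of_mem _ hs, rfl⟩
  have hq2 : (∑ k, (Φ.dF k : ℤ) - (d + 2)) * m + c2 * j + c1 * (j + 1) ≤ Φ.E * q := by
    refine le_trans ?_ hq
    push_cast
    have h1 : (0 : ℤ) ≤ NN * (c1 + c2 + 1) * (j + 1) := by positivity
    have h2 : (0 : ℤ) ≤ (c2 + j + 1 : ℤ) := by positivity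
    nlinarith
  refine hC j q ((∑ k, (Φ.dF k : ℤ) - (d + 2)) * m + c2 * j)
    (fun s => ⌈(es s : ℝ) * (m * (1 - β s)) / ((T s).N : ℝ)⌉ - c2 * j - q * (es s * (T s).V 0)) N
    (fun l => algebraMap K K' (ω l D * C.Lam m)) ?_ ?_ ?_ hq2 ?_ A ?_
  · have h1 := lin_sec C.u_bas hD hlin (fun l => (hsec l).1) (C.Lam_ne m)
    exact h1.map' (IsScalarTower.toAlgHom ℂ K K').toLinearMap
      (LinearMap.ker_eq_bot.2 (algebraMap K K').injective)
  · -- the places of the irreducible polynomials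
    intro l p hp v hvp hv
    obtain ⟨w, e, I, hwv, hcard, hI⟩ := exists_inertia G v
    refine ⟨w, e, hwv, fun g hg => ?_⟩
    obtain ⟨P, e1, e2, h1, h2, he⟩ := exists_restr (K := K) (over_comp hwv hg)
    have hcase := adic_LS C hW hax hβ (hsec l) hXZ hp hv h2 (fun hex => by
      refine C.ramG hXZ hwv hI hcard hg h1 he fun i => ?_
      have h3 : ¬ p ∣ C.pb i := by
        unfold pb
        intro h4
        obtain ⟨t, -, ht⟩ := (Prime.dvd_finset_prod_iff hp.prime _).1 h4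
        exact hex t (hp.prime.dvd_of_dvd_pow ht)
      rw [(hv _ (C.pb_ne i)).2.2 h3]
      exact dvd_zero _)
    obtain ⟨b, hb, hLS⟩ := hcase
    rcases Pool.Agent.Y169.TP.adic_f C hX hXZ hD hp hvp hv h2 hb hLS with
      h3 | ⟨s', hs', hs0, hle⟩
    · left
      rw [h3, map_zero]
    · right
      refine ⟨algebraMap K K' s', hS' s' hs', by simpa using hs0, ?_⟩
      rw [← Place.comp_ord, ← Place.comp_ord, h1.2, h1.2]
      exact mul_le_mul_of_nonneg_left hle (by positivity)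
  · -- the place at infinity
    intro l g hg
    obtain ⟨P, e1, e2, h1, h2, he⟩ := exists_restr (K := K) (over_comp hw0 hg)
    have he2 : e2 = 1 := by
      refine C.ramG hXZ hw0 hI0 hI0c hg h1 he fun i => ?_
      rw [pb, map_prod, ord_prod' v0 Finset.univ _ fun s _ => by
        rw [map_pow]
        exact pow_ne_zero _ (hX.ne (deh_F_ne s))]
      have h3 : ∀ s, v0.ord (aeval X (deh (Φ.F s) ^ C.a i s)) =
          - ((C.a i s * Φ.dF s : ℕ) : ℤ) := by
        intro s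
        rw [map_pow, v0.ord_pow, hv0 _ (deh_F_ne s), degB_deh (Φ.hh s) (Φ.hI s)]
        push_cast
        ring
      rw [Finset.sum_congr rfl fun s _ => h3 s, Finset.sum_neg_distrib, dvd_neg]
      exact_mod_cast C.hdiv i
    subst he2
    obtain ⟨α, vv, hα, hdat⟩ := C.exists_dat P
    rcases hinf P h2 (pw S j) m (ω l) (((hsec l).2 P α vv hdat).1 (inf_dat C hXZ hv0 h2 hdat)) with
      h3 | ⟨s', hs', hs0, hle⟩
    · left
      rw [h3, map_zero, map_zero]
    · right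
      obtain ⟨s, hs, rfl⟩ := mem_pw.1 hs'
      have h4 := hc2 g (hGG hg) s hs
      rw [← Place.comp_ord, h1.2] at h4
      rw [← Place.comp_ord, h1.2]
      rw [P.ord_pow] at hle
      have h5 : (e0 : ℤ) = e1 := by
        rw [he]
        push_cast
        ring
      rw [h5]
      have h6 : (e1 : ℤ) * (j * P.ord s) ≤ e1 * (P.ord (ω l D * C.Lam m) +
        (∑ k, (Φ.dF k : ℤ) - (d + 2)) * m) := mul_le_mul_of_nonneg_left hle (by positivity)
      have h7 : (j : ℤ) * (-(c2 : ℤ)) ≤ j * (e1 * P.ord s) :=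
        mul_le_mul_of_nonneg_left h4 (by positivity)
      have h8 : (1 : ℤ) ≤ e1 := by exact_mod_cast h1.1
      have h9 : (0 : ℤ) ≤ c2 * j := by positivity
      have h10 : (c2 : ℤ) * j ≤ e1 * (c2 * j) := by nlinarith
      nlinarith
  · -- the test places
    intro l s g hg
    obtain ⟨P, e1, e2, h1, h2, he⟩ := exists_restr (K := K) (over_comp (hws s) hg)
    obtain ⟨b0, hb0⟩ := (T s).ne
    obtain ⟨α, vv, hα, hdat⟩ := C.exists_dat P
    -- the logarithmic vector fields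
    obtain ⟨dd, hdddef⟩ : ∃ dd : Fin (d + 1) → Derivation ℂ K K,
      dd = fun b => algebraMap (fixedField G0) K (Y b) • DY b := ⟨_, rfl⟩
    have hlog : ∀ b z, P.Reg (dd b z / z) := fun b z => by
      rw [hdddef]
      exact log_zmono hY (T s).lam (hvs s) h2 (fun j => by rw [hYK]; exact hDY b j) z
    have hdd : ∀ i j, dd i (C.Y j) = if i = j then C.Y j else 0 := by
      intro i j
      rw [hdddef]
      dsimp only
      rw [Derivation.smul_apply, hDY, smul_eq_mul, hYK]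
      split_ifs with hij
      · rw [mul_one, hij]
      · rw [mul_zero]
    have hordY : ∀ b, P.ord (C.Y b) = e2 * (((T s).V b.succ : ℤ) - (T s).V 0) := by
      intro b
      have h3 := hvs s (MvPolynomial.X b) (X_ne_zero _)
      rw [aeval_X, zord_X] at h3
      rw [← hYK, h2.2, h3]
      rfl
    have hrel := C.toric_rel hdat (T s).h0 hordY
    have hdvd : e2 ∣ (T s).N := C.ram (hws s) (hIs s) (hIsc s) hg h1 he
      (fun b σ hσ => by
        rw [← hYK']
        exact (Y b).2 ⟨σ, hσ⟩) hdat (fun y j hj hy => C.jc_unit hdat hdd hlog hj hy)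
      (T s).hv hrel (T s).hT
    obtain ⟨hvT, hNe⟩ := test_dat C (T s) hdat h2.1 hrel hdvd (by rw [hTW]; exact hW s)
    have hq3 : (∑ k, (Φ.dF k : ℤ) - (d + 2)) * m ≤ Φ.E * q := by
      have h3 : (0 : ℤ) ≤ c2 * j + c1 * (j + 1) := by positivity
      linarith
    rw [← map_pow, ← map_div₀, hγd]
    have hLS : LS (d + 1) P (β s) (pw S j) m (ω l) :=
      ((hsec l).2 P α vv hdat).2 s 1 le_rfl (by rw [hvT, hTW, one_smul])
    rcases Pool.Agent.Y169.TP.test_f C hY hYK hD hDY (T s).lam hb0 (hvs s) h2 hdat hα hLS hq3 with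
      h3 | ⟨s', hs', hs0, hle⟩
    · left
      rw [h3, map_zero, map_zero]
    · right
      obtain ⟨s0, hs, rfl⟩ := mem_pw.1 hs'
      have h4 := hc2' s g hg s0 hs
      rw [← Place.comp_ord, h1.2] at h4
      rw [← Place.comp_ord, h1.2]
      rw [P.ord_pow] at hle
      have hr0 : (Φ.ee 0 : ℝ) * vv 0 = e2 * (T s).V 0 := by exact_mod_cast hrel 0
      rw [hr0] at hle
      have hN0 : (0 : ℝ) < (T s).N := by exact_mod_cast (T s).hN
      have he1 : (0 : ℝ) < e1 := by exact_mod_cast h1.1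
      have h5 := mul_le_mul_of_nonneg_left hle he1.le
      have h7 : (j : ℤ) * (-(c2 : ℤ)) ≤ j * (e1 * P.ord s0) :=
        mul_le_mul_of_nonneg_left h4 (by positivity)
      have h7' : (j : ℝ) * (-(c2 : ℝ)) ≤ j * (e1 * P.ord s0) := by exact_mod_cast h7
      have hes : (es s : ℝ) = e1 * (T s).N := by
        rw [he, hNe]
        push_cast
        ring
      have h8 : (es s : ℝ) * (m * (1 - β s)) / ((T s).N : ℝ) = e1 * (m * (1 - β s)) := by
        rw [hes]
        field_simp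
      have h11 : (q : ℤ) * (es s * (T s).V 0) = e1 * (q * (e2 * (T s).V 0)) := by
        rw [he]
        push_cast
        ring
      have h12 : ⌈(es s : ℝ) * (m * (1 - β s)) / ((T s).N : ℝ)⌉ ≤
          e1 * P.ord (ω l D * C.Lam m / aeval C.x (Φ.G 0) ^ q) + c2 * j +
            e1 * (q * (e2 * (T s).V 0)) := by
        rw [Int.ceil_le, h8]
        push_cast at h5 ⊢
        linarith
      rw [h11]
      linarith
  · -- the exponents
    intro a ha
    refine hA a fun s => ?_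
    have h1 := ha s
    have hN0 : (0 : ℝ) < (T s).N := by exact_mod_cast (T s).hN
    have hes : (1 : ℝ) ≤ es s := by exact_mod_cast (hws s).1
    obtain ⟨U, hU⟩ : ∃ U : ℤ, U = (T s).V 0 * (q - ∑ b, (a b : ℤ)) +
      ∑ b, ((T s).V b.succ : ℤ) * a b := ⟨_, rfl⟩
    have hsum : (Φ.ee 0 * W s 0 : ℤ) * (q - ∑ b, (a b : ℤ)) +
        ∑ b, (Φ.ee b.succ * W s b.succ : ℤ) * a b = (T s).N * U := by
      have h2 : ∀ k, (Φ.ee k : ℤ) * W s k = (T s).N * (T s).V k := fun k => by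
        rw [← hTW]
        exact_mod_cast (T s).hv k
      simp only [h2]
      rw [hU, mul_add, Finset.mul_sum]
      congr 1
      · ring
      · exact Finset.sum_congr rfl fun b _ => by ring
    have hz : zwt (T s).lam a = U - q * (T s).V 0 := by
      rw [hU]
      unfold zwt Dir.lam
      simp only [sub_mul]
      rw [Finset.sum_sub_distrib, ← Finset.mul_sum]
      ring
    rw [hsum]
    rw [hz] at h1
    have h2 : ⌈(es s : ℝ) * (m * (1 - β s)) / ((T s).N : ℝ)⌉ ≤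
        es s * U + c2 * j + c1 * (j + 1) := by
      nlinarith
    rw [Int.ceil_le, div_le_iff₀ hN0] at h2
    push_cast at h2 ⊢
    have hcj : (0 : ℝ) ≤ c2 * j + c1 * (j + 1) := by positivity
    have h4 : (es s : ℝ) * (m * (1 - β s) - (T s).N * U) ≤ (c2 * j + c1 * (j + 1)) * (T s).N := by
      nlinarith
    have h5 : (m : ℝ) * (1 - β s) - (T s).N * U ≤ (c2 * j + c1 * (j + 1)) * (T s).N := by
      by_cases h6 : (m : ℝ) * (1 - β s) - (T s).N * U ≤ 0
      · exact h6.trans (by positivity)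
      · push Not at h6
        nlinarith
    have h6 : ((T s).N : ℝ) ≤ NN := by exact_mod_cast hNle s
    have h7 : (c2 * j + c1 * (j + 1) : ℝ) * (T s).N ≤ (c2 * j + c1 * (j + 1)) * NN :=
      mul_le_mul_of_nonneg_left h6 hcj
    have h9 : (c2 * j + c1 * (j + 1) : ℝ) ≤ (c1 + c2 + 1) * (j + 1) := by
      have : (0 : ℝ) ≤ (c2 + j + 1 : ℝ) := by positivity
      nlinarith
    have h10 : (c2 * j + c1 * (j + 1) : ℝ) * NN ≤ ((c1 + c2 + 1) * (j + 1)) * NN :=
      mul_le_mul_of_nonneg_right h9 (by positivity)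
    have h11 : (0 : ℝ) ≤ (c1 + c2 + 1) * (j + 1) := by positivity
    nlinarith

end Pool.Agent.Y169.TP
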